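import Mathlib

set_option autoImplicit false

open Set Filter Topology MeasureTheory
open scoped Interval

namespace Pool.Agent.NH58.Fold

/-- differentiation under the integral sign for averages -/
theorem hasDerivAt_avg (m : ℕ) (p p' : ℝ → ℝ) (hp : ∀ x, HasDerivAt p (p' x) x)
    (hp' : Continuous p') (s : ℝ) :
    HasDerivAt (fun s : ℝ => ∫ σ in (0:ℝ)..1, σ ^ m * p (s * σ))
      (∫ σ in (0:ℝ)..1, σ ^ (m + 1) * p' (s * σ)) s := by
  have hpc : Continuous p := continuous_iff_continuousAt.2 fun x => (hp x).continuousAt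
  obtain ⟨C, hC⟩ : ∃ C, ∀ x ∈ Icc (-(|s| + 1)) (|s| + 1), ‖p' x‖ ≤ C :=
    isCompact_Icc.exists_bound_of_continuousOn hp'.continuousOn
  have key := intervalIntegral.hasDerivAt_integral_of_dominated_loc_of_deriv_le
    (μ := volume) (a := (0:ℝ)) (b := 1) (x₀ := s) (s := Metric.ball s 1)
    (F := fun s σ => σ ^ m * p (s * σ)) (F' := fun s σ => σ ^ (m + 1) * p' (s * σ))
    (bound := fun _ => C) (Metric.ball_mem_nhds s one_pos)
    (Eventually.of_forall fun x => (by fun_prop : Continuous fun σ : ℝ =>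
      σ ^ m * p (x * σ)).aestronglyMeasurable)
    ((by fun_prop : Continuous fun σ : ℝ => σ ^ m * p (s * σ)).intervalIntegrable _ _)
    ((by fun_prop : Continuous fun σ : ℝ => σ ^ (m + 1) * p' (s * σ)).aestronglyMeasurable)
    (Eventually.of_forall ?_) (continuous_const.intervalIntegrable _ _)
    (Eventually.of_forall ?_)
  · exact key.2
  · intro σ hσ x hx
    rw [uIoc_of_le zero_le_one] at hσ
    have h1 : |x * σ| ≤ |s| + 1 := by
      rw [abs_mul, abs_of_pos hσ.1]
      have : |x| ≤ |s| + 1 := by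
        have h2 : |x - s| < 1 := by simpa [Real.dist_eq] using hx
        have h3 : |x| ≤ |x - s| + |s| := by simpa using abs_add_le (x - s) s
        linarith
      have h4 : |x| * σ ≤ |x| * 1 := mul_le_mul_of_nonneg_left hσ.2 (abs_nonneg x)
      linarith
    have h2 : ‖p' (x * σ)‖ ≤ C := hC _ (abs_le.1 h1)
    rw [norm_mul, norm_pow, Real.norm_eq_abs, abs_of_pos hσ.1]
    have h3 : σ ^ (m + 1) ≤ 1 := pow_le_one₀ hσ.1.le hσ.2
    calc σ ^ (m + 1) * ‖p' (x * σ)‖ ≤ 1 * ‖p' (x * σ)‖ :=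
          mul_le_mul_of_nonneg_right h3 (norm_nonneg _)
      _ ≤ C := by rw [one_mul]; exact h2
  · intro σ _ x _
    have h1 : HasDerivAt (fun y : ℝ => y * σ) σ x := by
      simpa using (hasDerivAt_id x).mul_const σ
    have h2 := ((hp (x * σ)).comp x h1).const_mul (σ ^ m)
    refine h2.congr_deriv ?_
    ring

theorem continuous_avg (m : ℕ) (p : ℝ → ℝ) (hp : Continuous p) :
    Continuous (fun s : ℝ => ∫ σ in (0:ℝ)..1, σ ^ m * p (s * σ)) := by
  apply intervalIntegral.continuous_parametric_intervalIntegral_of_continuous'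
  fun_prop

theorem contDiff_avg (n : ℕ) : ∀ (m : ℕ) (p : ℝ → ℝ), ContDiff ℝ n p →
    ContDiff ℝ n (fun s : ℝ => ∫ σ in (0:ℝ)..1, σ ^ m * p (s * σ)) := by
  induction n with
  | zero =>
    intro m p hp
    rw [Nat.cast_zero, contDiff_zero] at hp ⊢
    exact continuous_avg m p hp
  | succ n ih =>
    intro m p hp
    have hp0 : ContDiff ℝ ((n : WithTop ℕ∞) + 1) p := by exact_mod_cast hp
    rw [contDiff_succ_iff_deriv] at hp0
    obtain ⟨h1, -, h2⟩ := hp0
    have hd : ∀ s, HasDerivAt (fun s : ℝ => ∫ σ in (0:ℝ)..1, σ ^ m * p (s * σ))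
        (∫ σ in (0:ℝ)..1, σ ^ (m + 1) * deriv p (s * σ)) s := fun s =>
      hasDerivAt_avg m p (deriv p) (fun x => (h1 x).hasDerivAt) h2.continuous s
    have : ContDiff ℝ ((n : WithTop ℕ∞) + 1)
        (fun s : ℝ => ∫ σ in (0:ℝ)..1, σ ^ m * p (s * σ)) := by
      rw [contDiff_succ_iff_deriv]
      refine ⟨fun s => (hd s).differentiableAt, by simp, ?_⟩
      rw [show deriv (fun s : ℝ => ∫ σ in (0:ℝ)..1, σ ^ m * p (s * σ)) =
        fun s => ∫ σ in (0:ℝ)..1, σ ^ (m + 1) * deriv p (s * σ) from funext fun s => (hd s).deriv]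
      exact ih (m + 1) (deriv p) h2
    exact_mod_cast this

end Pool.Agent.NH58.Fold
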