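import Mathlib

set_option autoImplicit false

open Set Filter Topology Real
open scoped Manifold ContDiff

namespace Pool.Agent.NH58.Fold

theorem isOpenQuotientMap_coe : IsOpenQuotientMap ((↑) : ℝ → Real.Angle) :=
  QuotientAddGroup.isOpenQuotientMap_mk

/-- locally the representative in `(-π, π]` is a translate -/
theorem toReal_local (t₀ : ℝ) (h : ((t₀ : ℝ) : Real.Angle) ≠ (π : ℝ)) :
    ∀ᶠ t : ℝ in 𝓝 t₀, (t : Real.Angle).toReal = t + ((t₀ : Real.Angle).toReal - t₀) := by
  set r := (t₀ : Real.Angle).toReal with hr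
  have h1 : -π < r := Real.Angle.neg_pi_lt_toReal _
  have h2 : r < π := lt_of_le_of_ne (Real.Angle.toReal_le_pi _) fun h' =>
    h (Real.Angle.toReal_eq_pi_iff.1 h')
  have h3 : Tendsto (fun t : ℝ => t + (r - t₀)) (𝓝 t₀) (𝓝 r) := by
    have : Continuous fun t : ℝ => t + (r - t₀) := by fun_prop
    simpa using this.tendsto t₀
  filter_upwards [h3.eventually (lt_mem_nhds h1), h3.eventually (gt_mem_nhds h2)] with t h4 h5
  have h6 : ((t + (r - t₀) : ℝ) : Real.Angle) = t := by
    rw [Real.Angle.coe_add, Real.Angle.coe_sub, hr, Real.Angle.coe_toReal]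
    simp
  rw [← h6]
  exact Real.Angle.toReal_coe_eq_self_iff.2 ⟨h4, h5.le⟩

theorem continuousAt_toReal {x : Real.Angle} (h : x ≠ (π : ℝ)) :
    ContinuousAt Real.Angle.toReal x := by
  rw [← Real.Angle.coe_toReal x] at h ⊢
  rw [← isOpenQuotientMap_coe.continuousAt_comp_iff]
  have h1 := toReal_local _ h
  have h2 : ContinuousAt (fun t : ℝ => t + (((x.toReal : ℝ) : Real.Angle).toReal - x.toReal))
      x.toReal := by fun_prop
  exact h2.congr (h1.mono fun t ht => ht.symm)

/-- The chart of the circle centred at `c`, with values in the interior of the half line. -/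
noncomputable def chartC (c : Real.Angle) :
    OpenPartialHomeomorph Real.Angle (EuclideanHalfSpace 1) where
  toFun x := ⟨WithLp.toLp 2 fun _ => (x - c).toReal + π, by
    have := Real.Angle.neg_pi_lt_toReal (x - c)
    show 0 ≤ (x - c).toReal + π
    linarith⟩
  invFun z := ((z.val 0 - π : ℝ) : Real.Angle) + c
  source := {x | x - c ≠ (π : ℝ)}
  target := {z | 0 < z.val 0 ∧ z.val 0 < 2 * π}
  map_source' := by
    intro x hx
    have h1 := Real.Angle.neg_pi_lt_toReal (x - c)
    have h2 : (x - c).toReal < π := lt_of_le_of_ne (Real.Angle.toReal_le_pi _) fun h' =>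
      hx (Real.Angle.toReal_eq_pi_iff.1 h')
    constructor
    · show 0 < (x - c).toReal + π
      linarith
    · show (x - c).toReal + π < 2 * π
      linarith
  map_target' := by
    intro z hz
    obtain ⟨h1, h2⟩ := hz
    show ((z.val 0 - π : ℝ) : Real.Angle) + c - c ≠ (π : ℝ)
    rw [add_sub_cancel_right]
    intro h
    have h3 : ((z.val 0 - π : ℝ) : Real.Angle).toReal = z.val 0 - π :=
      Real.Angle.toReal_coe_eq_self_iff.2 ⟨by linarith, by linarith⟩
    rw [h, Real.Angle.toReal_pi] at h3
    linarith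
  left_inv' := by
    intro x _
    show (((x - c).toReal + π - π : ℝ) : Real.Angle) + c = x
    rw [add_sub_cancel_right, Real.Angle.coe_toReal, sub_add_cancel]
  right_inv' := by
    intro z hz
    obtain ⟨h1, h2⟩ := hz
    apply Subtype.ext
    show WithLp.toLp 2 (fun _ => (((z.val 0 - π : ℝ) : Real.Angle) + c - c).toReal + π) = z.val
    rw [add_sub_cancel_right, Real.Angle.toReal_coe_eq_self_iff.2 ⟨by linarith, by linarith⟩]
    ext i
    rw [Subsingleton.elim i 0]
    simp
  open_source := by
    have : Continuous fun x : Real.Angle => x - c := by fun_prop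
    exact isOpen_compl_singleton.preimage this
  open_target := by
    have h : Continuous fun z : EuclideanHalfSpace 1 => z.val 0 :=
      (PiLp.continuous_apply 2 _ 0).comp continuous_subtype_val
    exact (isOpen_lt continuous_const h).inter (isOpen_lt h continuous_const)
  continuousOn_toFun := by
    intro x hx
    apply ContinuousAt.continuousWithinAt
    have h1 : ContinuousAt (fun x : Real.Angle => (x - c).toReal) x :=
      ContinuousAt.comp (f := fun x : Real.Angle => x - c) (continuousAt_toReal hx)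
        (by fun_prop)
    apply Topology.IsInducing.subtypeVal.continuousAt_iff.2
    have h2 : ContinuousAt (fun x : Real.Angle => fun _ : Fin 1 => (x - c).toReal + π) x :=
      continuousAt_pi.2 fun _ => h1.add continuousAt_const
    exact (PiLp.continuous_toLp 2 _).continuousAt.comp h2
  continuousOn_invFun := by
    have h : Continuous fun z : EuclideanHalfSpace 1 => z.val 0 :=
      (PiLp.continuous_apply 2 _ 0).comp continuous_subtype_val
    have h2 : Continuous fun z : EuclideanHalfSpace 1 =>
        ((z.val 0 - π : ℝ) : Real.Angle) + c :=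
      (Real.Angle.continuous_coe.comp (h.sub continuous_const)).add continuous_const
    exact h2.continuousOn

noncomputable instance : ChartedSpace (EuclideanHalfSpace 1) Real.Angle where
  atlas := Set.range chartC
  chartAt := chartC
  mem_chart_source x := by
    show x - x ≠ (π : ℝ)
    rw [sub_self]
    intro h
    have := congrArg Real.Angle.toReal h
    rw [Real.Angle.toReal_zero, Real.Angle.toReal_pi] at this
    exact Real.pi_pos.ne this
  chart_mem_atlas x := ⟨x, rfl⟩

instance : CompactSpace Real.Angle := by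
  have : Fact (0 < 2 * π) := ⟨Real.two_pi_pos⟩
  exact inferInstanceAs (CompactSpace (AddCircle (2 * π)))

instance : ConnectedSpace Real.Angle :=
  isOpenQuotientMap_coe.surjective.connectedSpace Real.Angle.continuous_coe

instance {n : ℕ∞ω} : IsManifold (𝓡∂ 1) n Real.Angle := by
  apply isManifold_of_contDiffOn
  rintro _ _ ⟨c, rfl⟩ ⟨d, rfl⟩
  rintro v ⟨⟨hv1, hv2⟩, ⟨z, rfl⟩⟩
  have hz : (𝓡∂ 1).symm ((𝓡∂ 1) z) = z := (𝓡∂ 1).left_inv z
  simp only [hz, mfld_simps] at hv1 hv2
  have hv1' : 0 < z.val 0 ∧ z.val 0 < 2 * π := hv1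
  have hv2' : ((z.val 0 - π : ℝ) : Real.Angle) + c - d ≠ (π : ℝ) := hv2
  -- the real expression
  set f : ℝ → ℝ := fun s => s - π + (c.toReal - d.toReal) with hf
  have hfc : ∀ s : ℝ, (f s : Real.Angle) = ((s - π : ℝ) : Real.Angle) + c - d := by
    intro s
    simp only [hf]
    rw [Real.Angle.coe_add, Real.Angle.coe_sub c.toReal, Real.Angle.coe_toReal,
      Real.Angle.coe_toReal]
    abel
  have h1 := toReal_local (f (z.val 0)) (by rw [hfc]; exact hv2')
  set k := ((f (z.val 0) : ℝ) : Real.Angle).toReal - f (z.val 0) with hk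
  have hv0 : Continuous fun v : EuclideanSpace ℝ (Fin 1) => v 0 := PiLp.continuous_apply 2 _ 0
  have hfv : Tendsto (fun v : EuclideanSpace ℝ (Fin 1) => f (v 0)) (𝓝 z.val)
      (𝓝 (f (z.val 0))) := by
    have : Continuous fun v : EuclideanSpace ℝ (Fin 1) => f (v 0) := by
      simp only [hf]; fun_prop
    exact this.tendsto _
  have h2 := hfv.eventually h1
  have h3 : ∀ᶠ v : EuclideanSpace ℝ (Fin 1) in 𝓝 z.val, 0 < v 0 :=
    (hv0.tendsto z.val).eventually (lt_mem_nhds hv1'.1)
  have h4 : ContDiffAt ℝ n (fun v : EuclideanSpace ℝ (Fin 1) =>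
      WithLp.toLp 2 fun _ : Fin 1 => f (v 0) + k + π) z.val := by
    have : ContDiff ℝ n (fun v : EuclideanSpace ℝ (Fin 1) =>
        WithLp.toLp 2 fun _ : Fin 1 => f (v 0) + k + π) := by
      apply contDiff_euclidean.2
      intro i
      simp only [hf]
      fun_prop
    exact this.contDiffAt
  refine (h4.congr_of_eventuallyEq ?_).contDiffWithinAt
  filter_upwards [h2, h3] with v h5 h6
  show ((chartC d) ((chartC c).symm ((𝓡∂ 1).symm v))).val = _
  show WithLp.toLp 2 (fun _ => ((((max (v 0) 0) - π : ℝ) : Real.Angle) + c - d).toReal + π) = _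
  rw [max_eq_left h6.le, ← hfc, h5]

/-- A map of the circle with local lifts of class `C^n` is of class `C^n`. -/
theorem contMDiff_of_lifts (n : ℕ∞ω) (F : Real.Angle → Real.Angle)
    (hF : ∀ t₀ : ℝ, ∃ f : ℝ → ℝ, ContDiffAt ℝ n f t₀ ∧ ∀ᶠ t : ℝ in 𝓝 t₀, F (t : Real.Angle) = f t) :
    ContMDiff (𝓡∂ 1) (𝓡∂ 1) n F := by
  intro x
  obtain ⟨f, hf, hfF⟩ := hF x.toReal
  have hFx : F x = f x.toReal := by
    have := hfF.self_of_nhds
    rwa [Real.Angle.coe_toReal] at this
  rw [contMDiffAt_iff]
  constructor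
  · rw [← Real.Angle.coe_toReal x, ← isOpenQuotientMap_coe.continuousAt_comp_iff]
    have h1 : ContinuousAt (fun t => ((f t : ℝ) : Real.Angle)) x.toReal :=
      Real.Angle.continuous_coe.continuousAt.comp hf.continuousAt
    exact h1.congr (hfF.mono fun t ht => ht.symm)
  · have hv : (extChartAt (𝓡∂ 1) x) x = WithLp.toLp 2 fun _ : Fin 1 => π := by
      show WithLp.toLp 2 (fun _ => (x - x).toReal + π) = _
      rw [sub_self, Real.Angle.toReal_zero, zero_add]
    set v₀ : EuclideanSpace ℝ (Fin 1) := WithLp.toLp 2 fun _ : Fin 1 => π with hv₀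
    have hv00 : v₀ 0 = π := rfl
    rw [hv]
    have hg : ContDiff ℝ n (fun v : EuclideanSpace ℝ (Fin 1) => v 0 - π + x.toReal) := by
      fun_prop
    have hg0 : (fun v : EuclideanSpace ℝ (Fin 1) => v 0 - π + x.toReal) v₀ = x.toReal := by
      show v₀ 0 - π + x.toReal = x.toReal
      rw [hv00]; ring
    have hgt : Tendsto (fun v : EuclideanSpace ℝ (Fin 1) => v 0 - π + x.toReal) (𝓝 v₀)
        (𝓝 x.toReal) := by
      have := hg.continuous.tendsto v₀
      have h0 : v₀ 0 - π + x.toReal = x.toReal := hg0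
      rwa [h0] at this
    have h1 := hgt.eventually hfF
    have hzero : ((0 : ℝ) : Real.Angle) ≠ (π : ℝ) := by
      intro h
      have := congrArg Real.Angle.toReal h
      rw [Real.Angle.coe_zero, Real.Angle.toReal_zero, Real.Angle.toReal_pi] at this
      exact Real.pi_pos.ne this
    have h2 := toReal_local 0 hzero
    have h3 : Tendsto (fun v : EuclideanSpace ℝ (Fin 1) =>
        f (v 0 - π + x.toReal) - f x.toReal) (𝓝 v₀) (𝓝 0) := by
      have := (hf.continuousAt.tendsto.comp hgt).sub_const (f x.toReal)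
      rwa [sub_self] at this
    have h4 := h3.eventually h2
    have h5 : ∀ᶠ v : EuclideanSpace ℝ (Fin 1) in 𝓝 v₀, 0 < v 0 := by
      have : Continuous fun v : EuclideanSpace ℝ (Fin 1) => v 0 := PiLp.continuous_apply 2 _ 0
      exact (this.tendsto v₀).eventually (lt_mem_nhds (by rw [hv00]; exact Real.pi_pos))
    have h6 : ContDiffAt ℝ n (fun v : EuclideanSpace ℝ (Fin 1) =>
        WithLp.toLp 2 fun _ : Fin 1 => f (v 0 - π + x.toReal) - f x.toReal + π) v₀ := by
      apply contDiffAt_euclidean.2
      intro i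
      show ContDiffAt ℝ n (fun v : EuclideanSpace ℝ (Fin 1) =>
        f (v 0 - π + x.toReal) - f x.toReal + π) v₀
      refine (ContDiffAt.sub ?_ contDiffAt_const).add contDiffAt_const
      have hf' : ContDiffAt ℝ n f ((fun v : EuclideanSpace ℝ (Fin 1) =>
        v 0 - π + x.toReal) v₀) := by rw [hg0]; exact hf
      exact hf'.comp v₀ hg.contDiffAt
    refine (h6.congr_of_eventuallyEq ?_).contDiffWithinAt
    filter_upwards [h1, h4, h5] with v h7 h8 h9
    show WithLp.toLp 2 (fun _ => (F ((((max (v 0) 0) - π : ℝ) : Real.Angle) + x) - F x).toReal + π)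
      = _
    rw [max_eq_left h9.le]
    have h10 : (((v 0 - π : ℝ)) : Real.Angle) + x = ((v 0 - π + x.toReal : ℝ) : Real.Angle) := by
      rw [Real.Angle.coe_add _ x.toReal, Real.Angle.coe_toReal]
    rw [h10, h7, hFx, ← Real.Angle.coe_sub, h8, Real.Angle.coe_zero, Real.Angle.toReal_zero]
    simp

end Pool.Agent.NH58.Fold
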