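import Mathlib
import Pool.Agent.NH58.Avg

set_option autoImplicit false

open Set Filter Topology MeasureTheory
open scoped Interval

namespace Pool.Agent.NH58.Fold

theorem eq_sq_mul_avg (Q H : ℝ → ℝ) (hQ : Continuous Q) (h0 : H 0 = 0)
    (hd : ∀ s, HasDerivAt H (s * Q s) s) (s : ℝ) :
    H s = s ^ 2 * ∫ σ in (0:ℝ)..1, σ ^ 1 * Q (s * σ) := by
  have h1 : ∫ τ in (0:ℝ)..s, τ * Q τ = H s - H 0 :=
    intervalIntegral.integral_eq_sub_of_hasDerivAt (fun x _ => hd x)
      ((by fun_prop : Continuous fun τ : ℝ => τ * Q τ).intervalIntegrable _ _)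
  rw [h0, sub_zero] at h1
  rw [← h1]
  have h2 := intervalIntegral.mul_integral_comp_mul_left (a := 0) (b := 1)
    (f := fun τ : ℝ => τ * Q τ) (c := s)
  rw [mul_zero, mul_one] at h2
  rw [← h2, sq, mul_assoc]
  congr 1
  rw [← intervalIntegral.integral_const_mul]
  congr 1
  ext σ
  ring

/-- The signed square root of a nonnegative function with a nondegenerate double zero. -/
theorem contDiffAt_signed_sqrt (n : ℕ) (Q H : ℝ → ℝ) (hQ : ContDiff ℝ n Q) (h0 : H 0 = 0)
    (hd : ∀ s, HasDerivAt H (s * Q s) s) (hQ0 : Q 0 ≠ 0) (hpos : ∀ s, 0 ≤ H s) :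
    ContDiffAt ℝ ((n : WithTop ℕ∞) + 1) (fun s => SignType.sign s * Real.sqrt (H s)) 0 := by
  set w : ℝ → ℝ := fun s => ∫ σ in (0:ℝ)..1, σ ^ 1 * Q (s * σ) with hw
  have hwc : ContDiff ℝ n w := contDiff_avg n 1 Q hQ
  have hHw : ∀ s, H s = s ^ 2 * w s := eq_sq_mul_avg Q H hQ.continuous h0 hd
  have hw0 : w 0 = Q 0 / 2 := by
    simp only [hw, zero_mul, pow_one]
    rw [intervalIntegral.integral_mul_const, integral_id]
    ring
  have hw0ne : w 0 ≠ 0 := by rw [hw0]; intro h; apply hQ0; linarith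
  have hwpos : 0 < w 0 := by
    rcases lt_or_gt_of_ne hw0ne with h | h
    · exfalso
      have h1 : ∀ᶠ s in 𝓝 (0:ℝ), w s < 0 := hwc.continuous.continuousAt.eventually_lt_const h
      obtain ⟨ε, hε, hb⟩ := Metric.eventually_nhds_iff.1 h1
      have h2 := hb (y := ε / 2) (by rw [Real.dist_eq, sub_zero, abs_of_pos (by linarith : 0 < ε / 2)]; linarith)
      have h3 := hpos (ε / 2)
      rw [hHw] at h3
      have h4 : 0 < (ε / 2) ^ 2 := by positivity
      nlinarith
    · exact h
  have hev : ∀ᶠ s in 𝓝 (0:ℝ), 0 < w s := hwc.continuous.continuousAt.eventually_const_lt hwpos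
  have hS : ∀ s, (SignType.sign s : ℝ) * Real.sqrt (H s) = s * Real.sqrt (w s) := by
    intro s
    rw [hHw, Real.sqrt_mul (sq_nonneg s), Real.sqrt_sq_eq_abs, ← mul_assoc, sign_mul_abs]
  have hderiv : ∀ᶠ s in 𝓝 (0:ℝ), HasDerivAt (fun s : ℝ => (SignType.sign s : ℝ) * Real.sqrt (H s))
      (Q s / (2 * Real.sqrt (w s))) s := by
    filter_upwards [hev] with s hs
    rcases eq_or_ne s 0 with rfl | hne
    · have h1 : (fun s : ℝ => (SignType.sign s : ℝ) * Real.sqrt (H s)) =
          fun s => s * Real.sqrt (w s) := funext hS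
      rw [h1, hasDerivAt_iff_tendsto_slope]
      have h2 : Tendsto (fun s => Real.sqrt (w s)) (𝓝[≠] 0) (𝓝 (Real.sqrt (w 0))) :=
        ((hwc.continuous.sqrt).tendsto 0).mono_left nhdsWithin_le_nhds
      have h3 : Q 0 / (2 * Real.sqrt (w 0)) = Real.sqrt (w 0) := by
        have : Q 0 = 2 * w 0 := by rw [hw0]; ring
        rw [this]
        have h4 : Real.sqrt (w 0) ≠ 0 := (Real.sqrt_pos.2 hwpos).ne'
        field_simp
        rw [Real.sq_sqrt hwpos.le]
      rw [h3]
      refine h2.congr' ?_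
      filter_upwards [self_mem_nhdsWithin] with x hx
      have hx' : x ≠ 0 := hx
      rw [slope_def_field]
      field_simp
      ring
    · have hHs : 0 < H s := by rw [hHw]; positivity
      have h1 : HasDerivAt (fun s => Real.sqrt (H s)) (s * Q s / (2 * Real.sqrt (H s))) s :=
        (hd s).sqrt hHs.ne'
      have h2 : HasDerivAt (fun x : ℝ => (SignType.sign s : ℝ) * Real.sqrt (H x))
          ((SignType.sign s : ℝ) * (s * Q s / (2 * Real.sqrt (H s)))) s := h1.const_mul _
      have h3 : (SignType.sign s : ℝ) * (s * Q s / (2 * Real.sqrt (H s))) =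
          Q s / (2 * Real.sqrt (w s)) := by
        rw [hHw, Real.sqrt_mul (sq_nonneg s), Real.sqrt_sq_eq_abs]
        have h4 : Real.sqrt (w s) ≠ 0 := (Real.sqrt_pos.2 hs).ne'
        have h5 : |s| ≠ 0 := abs_ne_zero.2 hne
        have h6 : (SignType.sign s : ℝ) * s = |s| := sign_mul_self s
        field_simp
        rw [h6, mul_comm]
      rw [← h3]
      refine h2.congr_of_eventuallyEq ?_
      have h7 : ∀ᶠ x in 𝓝 s, SignType.sign x = SignType.sign s := by
        have := (continuousAt_sign_of_ne_zero hne)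
        exact this.eventually (p := fun y => y = SignType.sign s) (by simp [nhds_discrete])
      filter_upwards [h7] with x hx
      rw [hx]
  rw [contDiffAt_succ_iff_hasFDerivAt]
  refine ⟨fun s => ContinuousLinearMap.toSpanSingleton ℝ (Q s / (2 * Real.sqrt (w s))), ?_, ?_⟩
  · obtain ⟨u, hu, hu'⟩ := hderiv.exists_mem
    exact ⟨u, hu, fun x hx => (hu' x hx).hasFDerivAt⟩
  · have h1 : ContDiffAt ℝ n (fun s => Q s / (2 * Real.sqrt (w s))) 0 := by
      refine hQ.contDiffAt.div (contDiffAt_const.mul (hwc.contDiffAt.sqrt hw0ne)) ?_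
      have := (Real.sqrt_pos.2 hwpos).ne'
      positivity
    exact (ContinuousLinearMap.toSpanSingletonCLE (𝕜 := ℝ) (E := ℝ)).contDiff.contDiffAt.comp 0 h1
end Pool.Agent.NH58.Fold
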