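import Mathlib
import Pool.Agent.NH58.Root
import Pool.Agent.NH58.Circ

set_option autoImplicit false

open Set Filter Topology Real
open scoped Manifold ContDiff

namespace Pool.Agent.NH58.Fold

instance fact1 : Fact ((-1 : ℝ) < 1) := ⟨by norm_num⟩

/-- the interval `[-1, 1]` -/
abbrev M : Type := Icc (-1 : ℝ) 1

/-- `f` permutes the end points (and nothing else goes there) -/
def Ends (f : M → M) : Prop := ∀ m : M, ((f m : ℝ)) ^ 2 = 1 ↔ (m : ℝ) ^ 2 = 1

/-- the fold `x ↦ cos x` -/
noncomputable def cosM (x : Real.Angle) : M := ⟨x.cos, by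
  induction x using Real.Angle.induction_on with
  | h x => rw [Real.Angle.cos_coe]; exact ⟨Real.neg_one_le_cos x, Real.cos_le_one x⟩⟩

/-- the lift of a map of the interval to the circle -/
noncomputable def lift (f : M → M) (x : Real.Angle) : Real.Angle :=
  if 0 ≤ x.sin then ((Real.arccos (f (cosM x)) : ℝ) : Real.Angle)
  else ((-Real.arccos (f (cosM x)) : ℝ) : Real.Angle)

theorem cos_lift (f : M → M) (x : Real.Angle) : (lift f x).cos = f (cosM x) := by
  have h1 := (f (cosM x)).2
  unfold lift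
  split_ifs
  · rw [Real.Angle.cos_coe, Real.cos_arccos h1.1 h1.2]
  · rw [Real.Angle.cos_coe, Real.cos_neg, Real.cos_arccos h1.1 h1.2]

theorem cosM_lift (f : M → M) (x : Real.Angle) : cosM (lift f x) = f (cosM x) :=
  Subtype.ext (cos_lift f x)

theorem sin_lift (f : M → M) (x : Real.Angle) : (lift f x).sin =
    if 0 ≤ x.sin then Real.sqrt (1 - (f (cosM x) : ℝ) ^ 2)
    else -Real.sqrt (1 - (f (cosM x) : ℝ) ^ 2) := by
  unfold lift
  split_ifs
  · rw [Real.Angle.sin_coe, Real.sin_arccos]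
  · rw [Real.Angle.sin_coe, Real.sin_neg, Real.sin_arccos]

theorem sin_sq_angle (x : Real.Angle) : x.sin ^ 2 = 1 - x.cos ^ 2 := by
  induction x using Real.Angle.induction_on with
  | h x => rw [Real.Angle.cos_coe, Real.Angle.sin_coe, Real.sin_sq]

theorem lift_comp (f g : M → M) (hg : Ends g) (x : Real.Angle) :
    lift (f ∘ g) x = lift f (lift g x) := by
  have h1 : (0 ≤ (lift g x).sin) ↔ 0 ≤ x.sin := by
    rw [sin_lift]
    split_ifs with h
    · exact ⟨fun _ => h, fun _ => Real.sqrt_nonneg _⟩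
    · refine ⟨fun h' => ?_, fun h' => absurd h' h⟩
      exfalso
      have h2 : x.sin ≠ 0 := fun h2 => h h2.ge
      have h3 : (g (cosM x) : ℝ) ^ 2 ≠ 1 := by
        intro h4
        rw [hg] at h4
        apply h2
        have h5 := sin_sq_angle x
        have h6 : x.cos ^ 2 = 1 := h4
        rw [h6] at h5
        nlinarith
      have h4 : (g (cosM x) : ℝ) ^ 2 ≤ 1 := by
        have := (g (cosM x)).2
        rw [sq_le_one_iff_abs_le_one, abs_le]
        exact this
      have h5 : 0 < 1 - (g (cosM x) : ℝ) ^ 2 := sub_pos.2 (lt_of_le_of_ne h4 h3)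
      have := Real.sqrt_pos.2 h5
      linarith
  have h2 : lift f (lift g x) = if 0 ≤ (lift g x).sin
      then ((Real.arccos (f (cosM (lift g x))) : ℝ) : Real.Angle)
      else ((-Real.arccos (f (cosM (lift g x))) : ℝ) : Real.Angle) := rfl
  rw [h2, cosM_lift]
  simp only [h1]
  rfl

theorem ext_angle (x y : Real.Angle) (h1 : x.cos = y.cos) (h2 : x.sin = y.sin) : x = y := by
  induction x using Real.Angle.induction_on with
  | h x =>
    induction y using Real.Angle.induction_on with
    | h y =>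
      exact Real.Angle.cos_sin_inj (by simpa [Real.Angle.cos_coe] using h1)
        (by simpa [Real.Angle.sin_coe] using h2)

theorem lift_id (x : Real.Angle) : lift id x = x := by
  apply ext_angle
  · rw [cos_lift]; rfl
  · rw [sin_lift]
    have h1 : (1 : ℝ) - ((id (cosM x) : M) : ℝ) ^ 2 = x.sin ^ 2 := by
      rw [sin_sq_angle]; rfl
    rw [h1, Real.sqrt_sq_eq_abs]
    split_ifs with h
    · exact abs_of_nonneg h
    · rw [abs_of_neg (not_le.1 h), neg_neg]

theorem cosM_surjective (m : M) : ∃ x : Real.Angle, cosM x = m :=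
  ⟨((Real.arccos m : ℝ) : Real.Angle), Subtype.ext (by
    show (((Real.arccos m : ℝ) : Real.Angle)).cos = m
    rw [Real.Angle.cos_coe, Real.cos_arccos m.2.1 m.2.2])⟩

theorem lift_injective {f g : M → M} (h : lift f = lift g) : f = g := by
  funext m
  obtain ⟨x, rfl⟩ := cosM_surjective m
  rw [← cosM_lift f, ← cosM_lift g, h]

/-- the smooth even function with `s * sincc s = sin s` -/
noncomputable def sincc (s : ℝ) : ℝ := ∫ σ in (0:ℝ)..1, σ ^ 0 * Real.cos (s * σ)

theorem contDiff_sincc (n : ℕ) : ContDiff ℝ n sincc :=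
  contDiff_avg n 0 Real.cos Real.contDiff_cos

theorem mul_sincc (s : ℝ) : s * sincc s = Real.sin s := by
  unfold sincc
  have h2 := intervalIntegral.mul_integral_comp_mul_left (a := 0) (b := 1)
    (f := fun τ : ℝ => Real.cos τ) (c := s)
  rw [mul_zero, mul_one, integral_cos, Real.sin_zero, sub_zero] at h2
  simp only [pow_zero, one_mul]
  exact h2

theorem sincc_zero : sincc 0 = 1 := by
  unfold sincc
  simp

/-- `f` as a function on the real line -/
noncomputable def ext (f : M → M) (t : ℝ) : ℝ := f (projIcc (-1) 1 fact1.out.le t)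

theorem ext_coe (f : M → M) (m : M) : ext f m = f m := by
  unfold ext
  rw [projIcc_val]

theorem ext_comp (f g : M → M) (t : ℝ) : ext f (ext g t) = ext (f ∘ g) t := by
  unfold ext
  rw [projIcc_val]
  rfl

theorem ext_mem (f : M → M) (t : ℝ) : ext f t ∈ Icc (-1 : ℝ) 1 := (f _).2

theorem contDiffOn_ext (n : ℕ∞ω) (f : M → M) (hf : ContMDiff (𝓡∂ 1) (𝓡∂ 1) n f) :
    ContDiffOn ℝ n (ext f) (Icc (-1 : ℝ) 1) := by
  have h1 : ContMDiff (𝓡∂ 1) 𝓘(ℝ) n (fun m : M => (f m : ℝ)) :=
    (contMDiff_subtypeVal_Icc (x := (-1 : ℝ)) (y := 1) (n := n)).comp hf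
  have h2 := (contMDiffOn_comp_projIcc_iff (x := (-1 : ℝ)) (y := 1) (n := n)
    (f := fun m : M => (f m : ℝ))).2 h1
  exact contMDiffOn_iff_contDiffOn.1 h2

theorem ends_of_bijective (f : M → M) (hf : Function.Bijective f)
    (hc : ContinuousOn (ext f) (Icc (-1 : ℝ) 1)) : Ends f := by
  have hinj : InjOn (ext f) (Icc (-1 : ℝ) 1) := by
    intro a ha b hb hab
    have h1 : f ⟨a, ha⟩ = f ⟨b, hb⟩ := by
      apply Subtype.ext
      rw [← ext_coe, ← ext_coe]
      exact hab
    exact congrArg Subtype.val (hf.1 h1)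
  have m1 : (-1 : ℝ) ∈ Icc (-1 : ℝ) 1 := by norm_num
  have p1 : (1 : ℝ) ∈ Icc (-1 : ℝ) 1 := by norm_num
  obtain ⟨a, ha⟩ := hf.2 ⟨-1, m1⟩
  obtain ⟨b, hb⟩ := hf.2 ⟨1, p1⟩
  have ha' : ext f a = -1 := by rw [ext_coe, ha]
  have hb' : ext f b = 1 := by rw [ext_coe, hb]
  have key : ∀ t ∈ Icc (-1 : ℝ) 1, (ext f t) ^ 2 = 1 ↔ t ^ 2 = 1 := by
    rcases hc.strictMonoOn_of_injOn_Icc' (by norm_num) hinj with hm | hm
    · have ea : (a : ℝ) = -1 := by
        by_contra hne
        have hlt : (-1 : ℝ) < a := lt_of_le_of_ne a.2.1 (Ne.symm hne)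
        have h3 := hm m1 a.2 hlt
        have h4 := (ext_mem f (-1)).1
        linarith
      have eb : (b : ℝ) = 1 := by
        by_contra hne
        have hlt : (b : ℝ) < 1 := lt_of_le_of_ne b.2.2 hne
        have h3 := hm b.2 p1 hlt
        have h4 := (ext_mem f 1).2
        linarith
      rw [ea] at ha'
      rw [eb] at hb'
      intro t ht
      rw [sq_eq_one_iff, sq_eq_one_iff]
      constructor
      · rintro (h | h)
        · left; exact hinj ht p1 (by rw [h, hb'])
        · right; exact hinj ht m1 (by rw [h, ha'])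
      · rintro (rfl | rfl)
        · left; exact hb'
        · right; exact ha'
    · have ea : (a : ℝ) = 1 := by
        by_contra hne
        have hlt : (a : ℝ) < 1 := lt_of_le_of_ne a.2.2 hne
        have h3 := hm a.2 p1 hlt
        have h4 := (ext_mem f 1).1
        linarith
      have eb : (b : ℝ) = -1 := by
        by_contra hne
        have hlt : (-1 : ℝ) < b := lt_of_le_of_ne b.2.1 (Ne.symm hne)
        have h3 := hm m1 b.2 hlt
        have h4 := (ext_mem f (-1)).2
        linarith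
      rw [ea] at ha'
      rw [eb] at hb'
      intro t ht
      rw [sq_eq_one_iff, sq_eq_one_iff]
      constructor
      · rintro (h | h)
        · right; exact hinj ht m1 (by rw [h, hb'])
        · left; exact hinj ht p1 (by rw [h, ha'])
      · rintro (rfl | rfl)
        · right; exact ha'
        · left; exact hb'
  intro m
  have := key m m.2
  rwa [ext_coe] at this

/-- Data extracted from a diffeomorphism `f` of the interval. -/
theorem nondeg (n : ℕ) (f f' : M → M) (hff : f' ∘ f = id)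
    (hf : ContDiffOn ℝ ((n : ℕ∞ω) + 1) (ext f) (Icc (-1 : ℝ) 1))
    (hf' : ContDiffOn ℝ ((n : ℕ∞ω) + 1) (ext f') (Icc (-1 : ℝ) 1)) (t : ℝ)
    (ht : t ∈ Icc (-1 : ℝ) 1) :
    derivWithin (ext f) (Icc (-1 : ℝ) 1) t ≠ 0 := by
  have hu : UniqueDiffWithinAt ℝ (Icc (-1 : ℝ) 1) t := uniqueDiffOn_Icc (by norm_num) t ht
  have h1 : DifferentiableWithinAt ℝ (ext f) (Icc (-1 : ℝ) 1) t :=
    (hf t ht).differentiableWithinAt (by simp)
  have h2 : DifferentiableWithinAt ℝ (ext f') (Icc (-1 : ℝ) 1) (ext f t) :=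
    (hf' _ (ext_mem f t)).differentiableWithinAt (by simp)
  have h3 : HasDerivWithinAt (ext f' ∘ ext f)
      (derivWithin (ext f') (Icc (-1 : ℝ) 1) (ext f t) *
        derivWithin (ext f) (Icc (-1 : ℝ) 1) t) (Icc (-1 : ℝ) 1) t :=
    h2.hasDerivWithinAt.comp t h1.hasDerivWithinAt (fun x _ => ext_mem f x)
  have h4 : HasDerivWithinAt (ext f' ∘ ext f) 1 (Icc (-1 : ℝ) 1) t := by
    refine (hasDerivWithinAt_id t _).congr (fun x hx => ?_) ?_
    · show ext f' (ext f x) = x
      rw [ext_comp, hff]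
      unfold ext
      rw [projIcc_of_mem _ hx]
      rfl
    · show ext f' (ext f t) = t
      rw [ext_comp, hff]
      unfold ext
      rw [projIcc_of_mem _ ht]
      rfl
  have h5 := hu.eq_deriv _ h3 h4
  intro h6
  rw [h6, mul_zero] at h5
  exact zero_ne_one h5

/-- Local lifts of the lift of a diffeomorphism of class `C^(n+1)`. -/
theorem local_lift (n : ℕ) (f f' : M → M) (hff : f' ∘ f = id) (he : Ends f)
    (hf : ContDiffOn ℝ ((n : ℕ∞ω) + 1) (ext f) (Icc (-1 : ℝ) 1))
    (hf' : ContDiffOn ℝ ((n : ℕ∞ω) + 1) (ext f') (Icc (-1 : ℝ) 1)) (t₀ : ℝ) :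
    ∃ F : ℝ → ℝ, ContDiffAt ℝ ((n : ℕ∞ω) + 1) F t₀ ∧
      ∀ᶠ t : ℝ in 𝓝 t₀, lift f (t : Real.Angle) = F t := by
  have hcos : ∀ θ : ℝ, Real.cos θ ∈ Icc (-1 : ℝ) 1 := fun θ =>
    ⟨Real.neg_one_le_cos θ, Real.cos_le_one θ⟩
  -- the function `g = f ∘ cos`
  set g : ℝ → ℝ := fun θ => ext f (Real.cos θ) with hg
  have hgc : ContDiff ℝ ((n : ℕ∞ω) + 1) g := hf.comp_contDiff Real.contDiff_cos hcos
  have hgm : ∀ θ, g θ ∈ Icc (-1 : ℝ) 1 := fun θ => ext_mem f _
  have hge : ∀ θ, (g θ) ^ 2 = 1 ↔ (Real.cos θ) ^ 2 = 1 := by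
    intro θ
    have := he ⟨Real.cos θ, hcos θ⟩
    rw [← ext_coe] at this
    exact this
  have hgl : ∀ θ : ℝ, (f (cosM (θ : Real.Angle)) : ℝ) = g θ := by
    intro θ
    rw [← ext_coe]
    rfl
  have hlift : ∀ θ : ℝ, lift f (θ : Real.Angle) = if 0 ≤ Real.sin θ
      then ((Real.arccos (g θ) : ℝ) : Real.Angle)
      else ((-Real.arccos (g θ) : ℝ) : Real.Angle) := by
    intro θ
    unfold lift
    rw [hgl, Real.Angle.sin_coe]
  by_cases hs : Real.sin t₀ = 0
  · -- end points
    set c := Real.cos t₀ with hc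
    have hc2 : c ^ 2 = 1 := by
      have := Real.sin_sq_add_cos_sq t₀
      rw [hs] at this
      rw [hc]; linarith
    have hg2 : (g t₀) ^ 2 = 1 := (hge t₀).2 hc2
    set P : ℝ → ℝ := fun θ => 2 * g θ * derivWithin (ext f) (Icc (-1 : ℝ) 1) (Real.cos θ) with hP
    have hPc : ContDiff ℝ n P := by
      have h1 : ContDiffOn ℝ n (derivWithin (ext f) (Icc (-1 : ℝ) 1)) (Icc (-1 : ℝ) 1) :=
        hf.derivWithin (uniqueDiffOn_Icc (by norm_num)) le_rfl
      have h2 : ContDiff ℝ n (fun θ => derivWithin (ext f) (Icc (-1 : ℝ) 1) (Real.cos θ)) :=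
        h1.comp_contDiff Real.contDiff_cos hcos
      have h3 : ContDiff ℝ n g := hgc.of_le (by exact_mod_cast Nat.le_succ n)
      exact (contDiff_const.mul h3).mul h2
    have hd : ∀ θ, HasDerivAt (fun θ => 1 - g θ ^ 2) (P θ * Real.sin θ) θ := by
      intro θ
      have h1 : HasDerivWithinAt (ext f) (derivWithin (ext f) (Icc (-1 : ℝ) 1) (Real.cos θ))
          (Icc (-1 : ℝ) 1) (Real.cos θ) :=
        ((hf _ (hcos θ)).differentiableWithinAt (by simp)).hasDerivWithinAt
      have h2 : HasDerivAt g (derivWithin (ext f) (Icc (-1 : ℝ) 1) (Real.cos θ) *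
          (-Real.sin θ)) θ :=
        h1.comp_hasDerivAt θ (Real.hasDerivAt_cos θ) (Eventually.of_forall hcos)
      have h3 := (h2.pow 2).const_sub 1
      refine h3.congr_deriv ?_
      simp only [hP]
      push_cast
      ring
    set Q : ℝ → ℝ := fun s => P (t₀ + s) * (c * sincc s) with hQ
    have hQc : ContDiff ℝ n Q := by
      have h1 : ContDiff ℝ n (fun s => P (t₀ + s)) :=
        hPc.comp (contDiff_const.add contDiff_id)
      exact h1.mul (contDiff_const.mul (contDiff_sincc n))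
    have hsin : ∀ s, Real.sin (t₀ + s) = c * Real.sin s := by
      intro s
      rw [Real.sin_add, hs]
      ring
    set H : ℝ → ℝ := fun s => 1 - g (t₀ + s) ^ 2 with hH
    have hH0 : H 0 = 0 := by
      simp only [hH, add_zero]
      rw [hg2]; ring
    have hHd : ∀ s, HasDerivAt H (s * Q s) s := by
      intro s
      have h1 : HasDerivAt (fun s : ℝ => t₀ + s) 1 s := by
        simpa using (hasDerivAt_id s).const_add t₀
      have h2 := (hd (t₀ + s)).comp s h1
      refine h2.congr_deriv ?_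
      simp only [hQ]
      rw [hsin, ← mul_sincc s]
      ring
    have hcne : c ≠ 0 := by
      intro h
      rw [h] at hc2
      norm_num at hc2
    have hgne : g t₀ ≠ 0 := by
      intro h
      rw [h] at hg2
      norm_num at hg2
    have hQ0 : Q 0 ≠ 0 := by
      simp only [hQ, hP, add_zero, sincc_zero, mul_one]
      have h1 := nondeg n f f' hff hf hf' (Real.cos t₀) (hcos t₀)
      exact mul_ne_zero (mul_ne_zero (mul_ne_zero two_ne_zero hgne) h1) hcne
    have hHpos : ∀ s, 0 ≤ H s := by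
      intro s
      have h1 := hgm (t₀ + s)
      simp only [hH]
      nlinarith [h1.1, h1.2]
    have hroot := contDiffAt_signed_sqrt n Q H hQc hH0 hHd hQ0 hHpos
    set S : ℝ → ℝ := fun s => SignType.sign s * Real.sqrt (H s) with hS
    have hS0 : S 0 = 0 := by simp [hS]
    have hSt : ContDiffAt ℝ ((n : ℕ∞ω) + 1) (fun t => c * S (t - t₀)) t₀ := by
      have h1 : ContDiffAt ℝ ((n : ℕ∞ω) + 1) S (t₀ - t₀) := by rw [sub_self]; exact hroot
      have h2 : ContDiffAt ℝ ((n : ℕ∞ω) + 1) (fun t : ℝ => t - t₀) t₀ := by fun_prop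
      exact contDiffAt_const.mul (ContDiffAt.comp (g := S) (f := fun t : ℝ => t - t₀) t₀ h1 h2)
    have harc : ContDiffAt ℝ ((n : ℕ∞ω) + 1) (fun t => Real.arcsin (c * S (t - t₀))) t₀ := by
      have h1 : ContDiffAt ℝ ((n : ℕ∞ω) + 1) Real.arcsin (c * S (t₀ - t₀)) := by
        rw [sub_self, hS0, mul_zero]
        exact Real.contDiffAt_arcsin (by norm_num) (by norm_num)
      exact ContDiffAt.comp (g := Real.arcsin) (f := fun t => c * S (t - t₀)) t₀ h1 hSt
    -- the sine of the lift
    have hnear : ∀ᶠ t : ℝ in 𝓝 t₀, |t - t₀| < π := by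
      have : Continuous fun t : ℝ => |t - t₀| := by fun_prop
      exact (this.tendsto t₀).eventually (gt_mem_nhds (by simp [Real.pi_pos]))
    have hsinl : ∀ t : ℝ, |t - t₀| < π →
        (lift f (t : Real.Angle)).sin = c * S (t - t₀) := by
      intro t ht
      rw [sin_lift, hgl, Real.Angle.sin_coe]
      have h1 : Real.sin t = c * Real.sin (t - t₀) := by
        rw [← hsin]; congr 1; ring
      have h2 : 1 - g t ^ 2 = H (t - t₀) := by
        simp only [hH]
        rw [add_sub_cancel]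
      rw [h2, h1]
      simp only [hS]
      rw [abs_lt] at ht
      rcases sq_eq_one_iff.1 hc2 with h3 | h3
      · rw [h3]
        rcases lt_trichotomy (t - t₀) 0 with h4 | h4 | h4
        · have h5 : Real.sin (t - t₀) < 0 := Real.sin_neg_of_neg_of_neg_pi_lt h4 ht.1
          rw [if_neg (by linarith), sign_neg h4]
          simp
        · rw [h4, Real.sin_zero, hH0]
          simp
        · have h5 : 0 < Real.sin (t - t₀) := Real.sin_pos_of_pos_of_lt_pi h4 ht.2
          rw [if_pos (by linarith), sign_pos h4]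
          simp
      · rw [h3]
        rcases lt_trichotomy (t - t₀) 0 with h4 | h4 | h4
        · have h5 : Real.sin (t - t₀) < 0 := Real.sin_neg_of_neg_of_neg_pi_lt h4 ht.1
          rw [if_pos (by linarith), sign_neg h4]
          simp
        · rw [h4, Real.sin_zero, hH0]
          simp
        · have h5 : 0 < Real.sin (t - t₀) := Real.sin_pos_of_pos_of_lt_pi h4 ht.2
          rw [if_neg (by linarith), sign_pos h4]
          simp
    have hsl : ∀ t : ℝ, |t - t₀| < π → (c * S (t - t₀)) ^ 2 = 1 - g t ^ 2 := by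
      intro t ht
      rw [← hsinl t ht, sin_sq_angle, cos_lift, hgl]
    have hmem : ∀ t : ℝ, |t - t₀| < π → c * S (t - t₀) ∈ Icc (-1 : ℝ) 1 := by
      intro t ht
      have h1 := hsl t ht
      constructor <;> nlinarith [sq_nonneg (g t)]
    rcases sq_eq_one_iff.1 hg2 with h3 | h3
    · refine ⟨fun t => Real.arcsin (c * S (t - t₀)), harc, ?_⟩
      have h4 : ∀ᶠ t : ℝ in 𝓝 t₀, 0 < g t :=
        (hgc.continuous.tendsto t₀).eventually (lt_mem_nhds (by rw [h3]; exact one_pos))
      filter_upwards [hnear, h4] with t h5 h6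
      apply ext_angle
      · rw [cos_lift, hgl, Real.Angle.cos_coe, Real.cos_arcsin, hsl t h5]
        rw [show (1 : ℝ) - (1 - g t ^ 2) = g t ^ 2 by ring, Real.sqrt_sq h6.le]
      · rw [hsinl t h5, Real.Angle.sin_coe, Real.sin_arcsin (hmem t h5).1 (hmem t h5).2]
    · refine ⟨fun t => π - Real.arcsin (c * S (t - t₀)), contDiffAt_const.sub harc, ?_⟩
      have h4 : ∀ᶠ t : ℝ in 𝓝 t₀, g t < 0 :=
        (hgc.continuous.tendsto t₀).eventually (gt_mem_nhds (by rw [h3]; norm_num))
      filter_upwards [hnear, h4] with t h5 h6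
      apply ext_angle
      · rw [cos_lift, hgl, Real.Angle.cos_coe, Real.cos_pi_sub, Real.cos_arcsin, hsl t h5]
        rw [show (1 : ℝ) - (1 - g t ^ 2) = g t ^ 2 by ring, Real.sqrt_sq_eq_abs, abs_of_neg h6,
          neg_neg]
      · rw [hsinl t h5, Real.Angle.sin_coe, Real.sin_pi_sub,
          Real.sin_arcsin (hmem t h5).1 (hmem t h5).2]
  · -- interior points
    have h1 : (g t₀) ^ 2 ≠ 1 := by
      intro h
      rw [hge] at h
      have := Real.sin_sq_add_cos_sq t₀
      rw [h] at this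
      exact hs (by nlinarith)
    have h2 : g t₀ ≠ -1 := by
      intro h; apply h1; rw [h]; norm_num
    have h3 : g t₀ ≠ 1 := by
      intro h; apply h1; rw [h]; norm_num
    have h4 : ContDiffAt ℝ ((n : ℕ∞ω) + 1) (fun t => Real.arccos (g t)) t₀ :=
      (Real.contDiffAt_arccos h2 h3).comp t₀ hgc.contDiffAt
    rcases lt_or_gt_of_ne hs with h5 | h5
    · refine ⟨fun t => -Real.arccos (g t), h4.neg, ?_⟩
      have h6 : ∀ᶠ t : ℝ in 𝓝 t₀, Real.sin t < 0 :=
        (Real.continuous_sin.tendsto t₀).eventually (gt_mem_nhds h5)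
      filter_upwards [h6] with t h7
      rw [hlift, if_neg (not_le.2 h7)]
    · refine ⟨fun t => Real.arccos (g t), h4, ?_⟩
      have h6 : ∀ᶠ t : ℝ in 𝓝 t₀, 0 < Real.sin t :=
        (Real.continuous_sin.tendsto t₀).eventually (lt_mem_nhds h5)
      filter_upwards [h6] with t h7
      rw [hlift, if_pos h7.le]

end Pool.Agent.NH58.Fold
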