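import Mathlib
import Pool.Agent.NH58.Fold

set_option autoImplicit false

open Set Filter Topology Real
open scoped Manifold ContDiff

namespace Pool.Agent.NH58.Fold

/-- the lift of a `C^k` diffeomorphism of the interval is of class `C^k` -/
theorem contMDiff_lift (k : ℕ∞) (hk : 1 ≤ k) (f f' : M → M) (hff : f' ∘ f = id)
    (hff' : f ∘ f' = id)
    (hf : ContMDiff (𝓡∂ 1) (𝓡∂ 1) (k : ℕ∞ω) f) (hf' : ContMDiff (𝓡∂ 1) (𝓡∂ 1) (k : ℕ∞ω) f') :
    Ends f ∧ ContMDiff (𝓡∂ 1) (𝓡∂ 1) (k : ℕ∞ω) (lift f) := by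
  have hbij : Function.Bijective f :=
    ⟨Function.LeftInverse.injective (g := f') (fun x => congrFun hff x),
      Function.RightInverse.surjective (g := f') (fun x => congrFun hff' x)⟩
  have he : Ends f := ends_of_bijective f hbij (contDiffOn_ext k f hf).continuousOn
  refine ⟨he, ?_⟩
  have hk0 : ∀ n : ℕ, ((n : ℕ∞) + 1 ≤ k) → ContMDiff (𝓡∂ 1) (𝓡∂ 1) ((n : ℕ∞ω) + 1) (lift f) := by
    intro n hn
    have hn' : ((n : ℕ∞ω) + 1) ≤ (k : ℕ∞ω) := by exact_mod_cast hn
    exact contMDiff_of_lifts _ _ fun t₀ => local_lift n f f' hff he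
      ((contDiffOn_ext k f hf).of_le hn') ((contDiffOn_ext k f' hf').of_le hn') t₀
  induction k using ENat.recTopCoe with
  | top =>
    have : ContMDiff (𝓡∂ 1) (𝓡∂ 1) ∞ (lift f) := by
      rw [contMDiff_infty]
      intro n
      exact (hk0 n le_top).of_le (by exact_mod_cast Nat.le_succ n)
    exact this
  | coe m =>
    have h1 : 1 ≤ m := by exact_mod_cast hk
    obtain ⟨n, rfl⟩ := Nat.exists_eq_add_of_le' h1
    have h2 := hk0 n (by push_cast; exact le_rfl)
    have h3 : ((n : ℕ∞ω) + 1) = ((((n + 1 : ℕ) : ℕ∞)) : ℕ∞ω) := by push_cast; rfl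
    rwa [← h3]

/-- A faithful action on the interval gives a faithful action on the circle. -/
theorem act_circle (k : ℕ∞) (hk : 1 ≤ k) (G : Type*) [Group G] (ρ : G →* Equiv.Perm M)
    (hρ : Function.Injective ρ)
    (hs : ∀ g : G, ContMDiff (𝓡∂ 1) (𝓡∂ 1) (k : ℕ∞ω) (ρ g)) :
    ∃ ρ' : G →* Equiv.Perm Real.Angle, Function.Injective ρ' ∧
      ∀ g : G, ContMDiff (𝓡∂ 1) (𝓡∂ 1) (k : ℕ∞ω) (ρ' g) := by
  have hinv : ∀ g : G, (ρ g⁻¹ : M → M) ∘ (ρ g : M → M) = id := by
    intro g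
    funext x
    show ρ g⁻¹ (ρ g x) = x
    rw [map_inv]
    exact (ρ g).symm_apply_apply x
  have hinv' : ∀ g : G, (ρ g : M → M) ∘ (ρ g⁻¹ : M → M) = id := by
    intro g
    funext x
    show ρ g (ρ g⁻¹ x) = x
    rw [map_inv]
    exact (ρ g).apply_symm_apply x
  have key : ∀ g : G, Ends (ρ g) ∧ ContMDiff (𝓡∂ 1) (𝓡∂ 1) (k : ℕ∞ω) (lift (ρ g)) := fun g =>
    contMDiff_lift k hk (ρ g) (ρ g⁻¹) (hinv g) (hinv' g) (hs g) (hs g⁻¹)
  have hmul : ∀ g h : G, ∀ x, lift (ρ (g * h)) x = lift (ρ g) (lift (ρ h) x) := by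
    intro g h x
    rw [← lift_comp _ _ (key h).1, map_mul]
    rfl
  have hone : ∀ x, lift (ρ 1) x = x := by
    intro x
    rw [map_one]
    exact lift_id x
  let φ : G →* Function.End Real.Angle :=
    { toFun := fun g => lift (ρ g)
      map_one' := funext hone
      map_mul' := fun g h => funext (hmul g h) }
  refine ⟨φ.toHomPerm, ?_, fun g => (key g).2⟩
  intro g h hgh
  apply hρ
  apply Equiv.ext
  intro m
  have h1 : lift (ρ g) = lift (ρ h) := by
    funext x
    exact congrArg (fun e : Equiv.Perm Real.Angle => e x) hgh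
  exact congrFun (lift_injective h1) m

/-- There is no injective continuous map from the circle to the line. -/
theorem no_inj (f : Real.Angle → ℝ) (hf : Continuous f) : ¬ Function.Injective f := by
  intro hinj
  set g : ℝ → ℝ := fun t => f (t : Real.Angle) - f ((t + π : ℝ) : Real.Angle) with hg
  have hgc : Continuous g := by
    have h1 : Continuous fun t : ℝ => f (t : Real.Angle) := hf.comp Real.Angle.continuous_coe
    have h2 : Continuous fun t : ℝ => f ((t + π : ℝ) : Real.Angle) :=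
      h1.comp (continuous_id.add continuous_const)
    exact h1.sub h2
  have h1 : g π = -g 0 := by
    simp only [hg]
    have h2 : ((π + π : ℝ) : Real.Angle) = ((0 : ℝ) : Real.Angle) := by
      rw [show π + π = 2 * π by ring, Real.Angle.coe_two_pi, Real.Angle.coe_zero]
    rw [h2, zero_add]
    ring
  have h3 : ∃ t, g t = 0 := by
    rcases le_total (g 0) 0 with h | h
    · have := intermediate_value_Icc Real.pi_pos.le hgc.continuousOn
      obtain ⟨t, -, ht⟩ := this (show (0 : ℝ) ∈ Icc (g 0) (g π) from ⟨h, by rw [h1]; linarith⟩)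
      exact ⟨t, ht⟩
    · have := intermediate_value_Icc' Real.pi_pos.le hgc.continuousOn
      obtain ⟨t, -, ht⟩ := this (show (0 : ℝ) ∈ Icc (g π) (g 0) from ⟨by rw [h1]; linarith, h⟩)
      exact ⟨t, ht⟩
  obtain ⟨t, ht⟩ := h3
  have h4 : (t : Real.Angle) = ((t + π : ℝ) : Real.Angle) := hinj (sub_eq_zero.1 ht)
  rw [Real.Angle.coe_add, left_eq_add] at h4
  have := congrArg Real.Angle.toReal h4
  rw [Real.Angle.toReal_pi, Real.Angle.toReal_zero] at this
  exact Real.pi_pos.ne' this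

theorem not_homeo : IsEmpty (M ≃ₜ Real.Angle) := by
  constructor
  intro e
  exact no_inj (fun x => (e.symm x : ℝ)) (continuous_subtype_val.comp e.symm.continuous)
    (Subtype.val_injective.comp e.symm.injective)

instance : ConnectedSpace M :=
  Subtype.connectedSpace (isConnected_Icc (by norm_num))

/-- The interval has no detecting group. -/
theorem interval_no_detecting (k : ℕ∞) (hk : 1 ≤ k) (G : Type*) [Group G]
    (h : ∀ (N : Type) [TopologicalSpace N] [T2Space N] [CompactSpace N] [ConnectedSpace N]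
      [ChartedSpace (EuclideanHalfSpace 1) N]
      [IsManifold (𝓡∂ 1) ((⊤ : ℕ∞) : WithTop ℕ∞) N],
      ((∃ ρ : G →* Equiv.Perm N, Function.Injective ρ ∧
          ∀ g : G, ContMDiff (𝓡∂ 1) (𝓡∂ 1) (k : WithTop ℕ∞) (ρ g)) ↔
        Nonempty (Diffeomorph (𝓡∂ 1) (𝓡∂ 1) M N (k : WithTop ℕ∞)))) : False := by
  obtain ⟨ρ, hρ, hs⟩ := (h M).2 ⟨Diffeomorph.refl _ _ _⟩
  obtain ⟨e⟩ := (h Real.Angle).1 (act_circle k hk G ρ hρ hs)
  exact not_homeo.false e.toHomeomorph

end Pool.Agent.NH58.Fold
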