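import Pool.Agent.H854R3.NE.FinRed

/-!
Non-Engel varieties of associative rings: square-zero ideals and torsion-free rings.
-/

set_option autoImplicit false

namespace Pool.Agent.NH58.NE

open Pool.Agent.H854R3.NE Polynomial

variable {R : Type} [NonUnitalRing R]

/-- All commutators in the subring generated by `b`, `y` lie in an ideal containing `b`. -/
theorem comm_mem {K : TwoSidedIdeal R} {b y : R} (hg : GenBy b y) (hb : b ∈ K) (u v : R) :
    u * v - v * u ∈ K := by
  have hy : ∀ v : R, y * v - v * y ∈ K := by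
    intro v
    refine hg.induction (P := fun v => y * v - v * y ∈ K) ?_ ?_ ?_ ?_ ?_ ?_ v
    · exact K.sub_mem (K.mul_mem_left _ _ hb) (K.mul_mem_right _ _ hb)
    · rw [sub_self]; exact K.zero_mem
    · rw [mul_zero, zero_mul, sub_self]; exact K.zero_mem
    · intro a c ha hc
      have : y * (a + c) - (a + c) * y = (y * a - a * y) + (y * c - c * y) := by noncomm_ring
      rw [this]; exact K.add_mem ha hc
    · intro a ha
      have : y * (-a) - (-a) * y = -(y * a - a * y) := by noncomm_ring
      rw [this]; exact K.neg_mem ha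
    · intro a c ha hc
      have : y * (a * c) - (a * c) * y = (y * a - a * y) * c + a * (y * c - c * y) := by
        noncomm_ring
      rw [this]; exact K.add_mem (K.mul_mem_right _ _ ha) (K.mul_mem_left _ _ hc)
  refine hg.induction (P := fun u => u * v - v * u ∈ K) ?_ ?_ ?_ ?_ ?_ ?_ u
  · exact K.sub_mem (K.mul_mem_right _ _ hb) (K.mul_mem_left _ _ hb)
  · exact hy v
  · rw [mul_zero, zero_mul, sub_self]; exact K.zero_mem
  · intro a c ha hc
    have : (a + c) * v - v * (a + c) = (a * v - v * a) + (c * v - v * c) := by noncomm_ring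
    rw [this]; exact K.add_mem ha hc
  · intro a ha
    have : (-a) * v - v * (-a) = -(a * v - v * a) := by noncomm_ring
    rw [this]; exact K.neg_mem ha
  · intro a c ha hc
    have : (a * c) * v - v * (a * c) = a * (c * v - v * c) + (a * v - v * a) * c := by
      noncomm_ring
    rw [this]; exact K.add_mem (K.mul_mem_left _ _ hc) (K.mul_mem_right _ _ ha)

/-- If `K K ⊆ I` and `b ∈ K`, then the `n`-th Engel commutator of `b` and `y` lies in `I`. -/
theorem eng_mem_of_sq_gen {E : Set (RTerm × RTerm)} {n : ℕ} (h : D2Engel E n) (hR : Models E R)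
    {K I : TwoSidedIdeal R} (hKI : ∀ a ∈ K, ∀ c ∈ K, a * c ∈ I) {b y : R} (hg : GenBy b y)
    (hb : b ∈ K) : eng b y n ∈ I := by
  obtain ⟨Q, inst, φ, hφ, hker⟩ := exists_quot I
  rw [← hker, eng_map]
  apply h.2 Q (hR.of_surjective φ hφ)
  have lift : ∀ a ∈ Comm Q, ∃ a' ∈ K, φ a' = a := by
    rintro _ ⟨u, v, rfl⟩
    obtain ⟨u, rfl⟩ := hφ u
    obtain ⟨v, rfl⟩ := hφ v
    exact ⟨u * v - v * u, comm_mem hg hb u v, by rw [map_sub, map_mul, map_mul]⟩
  constructor
  · intro a ha c hc
    obtain ⟨a', ha', rfl⟩ := lift a ha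
    obtain ⟨c', hc', rfl⟩ := lift c hc
    rw [← map_mul, hker]
    exact hKI a' ha' c' hc'
  · intro a ha c hc d
    obtain ⟨a', ha', rfl⟩ := lift a ha
    obtain ⟨c', hc', rfl⟩ := lift c hc
    obtain ⟨d, rfl⟩ := hφ d
    rw [← map_mul, ← map_mul, hker]
    exact hKI _ (K.mul_mem_right _ _ ha') c' hc'

/-- The restriction of an ideal to a subring. -/
def restr (B : NonUnitalSubring R) (K : TwoSidedIdeal R) : TwoSidedIdeal B :=
  TwoSidedIdeal.mk' {z : B | (z : R) ∈ K}
    (by change ((0 : B) : R) ∈ K; rw [ZeroMemClass.coe_zero]; exact K.zero_mem)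
    (by intro x y hx hy; exact K.add_mem hx hy)
    (by intro x hx; exact K.neg_mem hx)
    (by intro x y hy; exact K.mul_mem_left _ _ hy)
    (by intro x y hx; exact K.mul_mem_right _ _ hx)

theorem mem_restr (B : NonUnitalSubring R) (K : TwoSidedIdeal R) (z : B) :
    z ∈ restr B K ↔ (z : R) ∈ K := TwoSidedIdeal.mem_mk' _ _ _ _ _ _ z

theorem eng_mem_of_sq {E : Set (RTerm × RTerm)} {n : ℕ} (h : D2Engel E n) (hR : Models E R)
    {K I : TwoSidedIdeal R} (hKI : ∀ a ∈ K, ∀ c ∈ K, a * c ∈ I) {b : R} (hb : b ∈ K) (y : R) :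
    eng b y n ∈ I := by
  have h1 := eng_mem_of_sq_gen (R := sub2 b y) h (hR.subring _) (K := restr _ K)
    (I := restr _ I) (by
      intro a ha c hc
      rw [mem_restr] at ha hc ⊢
      exact hKI _ ha _ hc) (genBy_sub2 b y) (by rw [mem_restr]; exact hb)
  rw [mem_restr] at h1
  have h2 := eng_map (NonUnitalSubringClass.subtype (sub2 b y)) (sx b y) (sy b y) n
  have h3 : (NonUnitalSubringClass.subtype (sub2 b y)) (eng (sx b y) (sy b y) n) ∈ I := h1
  rw [h2] at h3
  exact h3

/-! ### Torsion-free rings -/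

theorem poly_zero {M : Type} [AddCommGroup M] (htf : ∀ (k : ℤ) (m : M), k • m = 0 → k = 0 ∨ m = 0) :
    ∀ (N : ℕ) (c : ℕ → M), (∀ s : ℤ, ∑ i ∈ Finset.range N, s ^ i • c i = 0) →
      ∀ i < N, c i = 0 := by
  intro N
  induction N with
  | zero => intro c _ i hi; omega
  | succ N ih =>
    intro c h
    have h1 : ∀ i < N, c i = 0 := by
      have h2 := ih (fun i => ((2 : ℤ) ^ i - 2 ^ N) • c i) (by
        intro s
        have e1 := h (2 * s)
        have e2 := h s
        rw [Finset.sum_range_succ] at e1 e2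
        have e3 : (2 : ℤ) ^ N • (∑ i ∈ Finset.range N, s ^ i • c i + s ^ N • c N) = 0 := by
          rw [e2, smul_zero]
        have e4 : ∑ i ∈ Finset.range N, (2 * s) ^ i • c i + (2 * s) ^ N • c N -
            (2 : ℤ) ^ N • (∑ i ∈ Finset.range N, s ^ i • c i + s ^ N • c N) = 0 := by
          rw [e1, e3, sub_zero]
        rw [smul_add, Finset.smul_sum, smul_smul, mul_pow, add_sub_add_right_eq_sub,
          ← Finset.sum_sub_distrib] at e4
        rw [← e4]
        refine Finset.sum_congr rfl fun i _ => ?_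
        rw [smul_smul, smul_smul, mul_pow, ← sub_smul]
        congr 1
        ring)
      intro i hi
      rcases htf _ _ (h2 i hi) with h3 | h3
      · exfalso
        have h4 : (2 : ℤ) ^ i < 2 ^ N := pow_lt_pow_right₀ (by norm_num) hi
        omega
      · exact h3
    intro i hi
    rcases Nat.lt_succ_iff_lt_or_eq.1 hi with hi | rfl
    · exact h1 i hi
    · have e1 := h 1
      rw [Finset.sum_range_succ, Finset.sum_eq_zero (fun i hi => by
        rw [h1 i (Finset.mem_range.1 hi), smul_zero]), zero_add, one_pow, one_smul] at e1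
      exact e1

section poly

variable {U : Type} [Ring U] (B : NonUnitalSubring U)

/-- polynomials with coefficients in `B` -/
def PolyB : NonUnitalSubring U[X] where
  carrier := {p | ∀ i, p.coeff i ∈ B}
  add_mem' := by
    intro p q hp hq i
    rw [coeff_add]
    exact B.add_mem (hp i) (hq i)
  zero_mem' := by intro i; rw [coeff_zero]; exact B.zero_mem
  neg_mem' := by
    intro p hp i
    rw [coeff_neg]
    exact B.neg_mem (hp i)
  mul_mem' := by
    intro p q hp hq i
    rw [coeff_mul]
    exact sum_mem fun x _ => B.mul_mem (hp x.1) (hq x.2)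

theorem eval_sum (p : U[X]) (s : ℤ) :
    p.eval (s : U) = ∑ i ∈ Finset.range (p.natDegree + 1), s ^ i • p.coeff i := by
  rw [eval_eq_sum_range]
  refine Finset.sum_congr rfl fun i _ => ?_
  have h3 : (s : U) ^ i = ((s ^ i : ℤ) : U) := by push_cast; rfl
  rw [h3, ← (Int.cast_commute (s ^ i) _).eq, ← zsmul_eq_mul]

theorem eval_mem (p : PolyB B) (s : ℤ) : (p : U[X]).eval (s : U) ∈ B := by
  rw [eval_sum]
  exact sum_mem fun i _ => B.zsmul_mem (p.2 i) _

/-- evaluation of polynomials at integers -/
noncomputable def ev : PolyB B →ₙ+* (ℤ → B) where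
  toFun p s := ⟨(p : U[X]).eval (s : U), eval_mem B p s⟩
  map_zero' := by
    funext s
    exact Subtype.ext (by simp)
  map_add' p q := by
    funext s
    exact Subtype.ext (by simp)
  map_mul' p q := by
    funext s
    exact Subtype.ext (eval₂_mul_noncomm (RingHom.id _) (s : U)
      fun k => (Int.cast_commute s _).symm)

theorem ev_injective (htf : ∀ (k : ℤ) (m : B), k • m = 0 → k = 0 ∨ m = 0) :
    Function.Injective (ev B) := by
  rw [injective_iff_map_eq_zero]
  intro p hp
  apply Subtype.ext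
  ext i
  change (p : U[X]).coeff i = 0
  by_cases hi : i < (p : U[X]).natDegree + 1
  · have h1 := poly_zero htf ((p : U[X]).natDegree + 1)
      (fun i => (⟨(p : U[X]).coeff i, p.2 i⟩ : B)) (by
        intro s
        have h1 : (p : U[X]).eval (s : U) = 0 := congrArg Subtype.val (congrFun hp s)
        rw [eval_sum] at h1
        apply Subtype.ext
        rw [AddSubmonoidClass.coe_finsetSum]
        exact h1) i hi
    exact congrArg Subtype.val h1
  · exact coeff_eq_zero_of_natDegree_lt (by omega)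

/-- torsion-free rings of the variety satisfy the Engel identity -/
theorem eng_of_torsion_free_sub {E : Set (RTerm × RTerm)} {n : ℕ} (h : D2Engel E n)
    (hR : Models E B) (htf : ∀ (k : ℤ) (m : B), k • m = 0 → k = 0 ∨ m = 0) (x y : B) :
    eng x y n = 0 := by
  have hP : Models E (PolyB B) :=
    (Models.pi (fun _ : ℤ => B) (fun _ => hR)).of_injective (ev B) (ev_injective B htf)
  -- the ideals
  let K : TwoSidedIdeal (PolyB B) := TwoSidedIdeal.mk'
    {p : PolyB B | (p : U[X]).coeff 0 = 0}
    (by change ((0 : PolyB B) : U[X]).coeff 0 = 0; simp)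
    (by
      intro p q hp hq
      change ((p + q : PolyB B) : U[X]).coeff 0 = 0
      rw [AddMemClass.coe_add, coeff_add, hp, hq, add_zero])
    (by
      intro p hp
      change ((-p : PolyB B) : U[X]).coeff 0 = 0
      rw [NegMemClass.coe_neg, coeff_neg, hp, neg_zero])
    (by
      intro p q hq
      change ((p * q : PolyB B) : U[X]).coeff 0 = 0
      rw [MulMemClass.coe_mul, mul_coeff_zero, hq, mul_zero])
    (by
      intro p q hp
      change ((p * q : PolyB B) : U[X]).coeff 0 = 0
      rw [MulMemClass.coe_mul, mul_coeff_zero, hp, zero_mul])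
  have hK : ∀ p : PolyB B, p ∈ K ↔ (p : U[X]).coeff 0 = 0 :=
    fun p => TwoSidedIdeal.mem_mk' _ _ _ _ _ _ p
  let I : TwoSidedIdeal (PolyB B) := TwoSidedIdeal.mk'
    {p : PolyB B | (p : U[X]).coeff 0 = 0 ∧ (p : U[X]).coeff 1 = 0}
    (by
      change ((0 : PolyB B) : U[X]).coeff 0 = 0 ∧ ((0 : PolyB B) : U[X]).coeff 1 = 0
      simp)
    (by
      intro p q hp hq
      change ((p + q : PolyB B) : U[X]).coeff 0 = 0 ∧ ((p + q : PolyB B) : U[X]).coeff 1 = 0
      rw [AddMemClass.coe_add, coeff_add, coeff_add, hp.1, hq.1, hp.2, hq.2, add_zero]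
      exact ⟨rfl, rfl⟩)
    (by
      intro p hp
      change ((-p : PolyB B) : U[X]).coeff 0 = 0 ∧ ((-p : PolyB B) : U[X]).coeff 1 = 0
      rw [NegMemClass.coe_neg, coeff_neg, coeff_neg, hp.1, hp.2, neg_zero]
      exact ⟨rfl, rfl⟩)
    (by
      intro p q hq
      change ((p * q : PolyB B) : U[X]).coeff 0 = 0 ∧ ((p * q : PolyB B) : U[X]).coeff 1 = 0
      rw [MulMemClass.coe_mul, mul_coeff_zero, mul_coeff_one, hq.1, hq.2]
      simp)
    (by
      intro p q hp
      change ((p * q : PolyB B) : U[X]).coeff 0 = 0 ∧ ((p * q : PolyB B) : U[X]).coeff 1 = 0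
      rw [MulMemClass.coe_mul, mul_coeff_zero, mul_coeff_one, hp.1, hp.2]
      simp)
  have hI : ∀ p : PolyB B, p ∈ I ↔ (p : U[X]).coeff 0 = 0 ∧ (p : U[X]).coeff 1 = 0 :=
    fun p => TwoSidedIdeal.mem_mk' _ _ _ _ _ _ p
  have hKI : ∀ a ∈ K, ∀ c ∈ K, a * c ∈ I := by
    intro a ha c hc
    rw [hK] at ha hc
    rw [hI, MulMemClass.coe_mul, mul_coeff_zero, mul_coeff_one, ha, hc]
    simp
  have hcx : ∀ x : B, C (x : U) ∈ PolyB B := by
    intro x i
    rw [coeff_C]
    split_ifs
    · exact x.2
    · exact B.zero_mem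
  have hcX : ∀ x : B, C (x : U) * X ∈ PolyB B := by
    intro x i
    rw [coeff_C_mul, coeff_X]
    split_ifs
    · rw [mul_one]; exact x.2
    · rw [mul_zero]; exact B.zero_mem
  let b : PolyB B := ⟨C (x : U) * X, hcX x⟩
  let z : PolyB B := ⟨C (y : U), hcx y⟩
  have hb : b ∈ K := by
    rw [hK]
    change (C (x : U) * X).coeff 0 = 0
    simp
  have h1 := eng_mem_of_sq h hP hKI hb z
  rw [hI] at h1
  have h2 : ∀ k, ((eng b z k : PolyB B) : U[X]) = C ((eng x y k : B) : U) * X := by
    intro k
    induction k with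
    | zero => rfl
    | succ k ih =>
      change ((eng b z k * z - z * eng b z k : PolyB B) : U[X]) =
        C ((eng x y k * y - y * eng x y k : B) : U) * X
      rw [AddSubgroupClass.coe_sub, MulMemClass.coe_mul, MulMemClass.coe_mul, ih,
        AddSubgroupClass.coe_sub, MulMemClass.coe_mul, MulMemClass.coe_mul, C_sub, C_mul, C_mul]
      change C ((eng x y k : B) : U) * X * C (y : U) -
        C (y : U) * (C ((eng x y k : B) : U) * X) = _
      rw [mul_assoc _ X, X_mul_C, sub_mul]
      simp only [mul_assoc]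
  have h3 := h1.2
  rw [h2, coeff_C_mul, coeff_X_one, mul_one] at h3
  exact Subtype.ext h3

end poly

theorem eng_of_torsion_free_emb {E : Set (RTerm × RTerm)} {n : ℕ} (h : D2Engel E n)
    (hR : Models E R) (htf : ∀ (k : ℤ) (m : R), k • m = 0 → k = 0 ∨ m = 0)
    {U : Type} [Ring U] (ι : R →ₙ+* U) (hι : Function.Injective ι) (x y : R) :
    eng x y n = 0 := by
  have hsurj : Function.Surjective ι.rangeRestrict := NonUnitalRingHom.rangeRestrict_surjective ι
  have h1 : Models E ι.range := hR.of_surjective ι.rangeRestrict hsurj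
  have htf' : ∀ (k : ℤ) (m : ι.range), k • m = 0 → k = 0 ∨ m = 0 := by
    intro k m hm
    obtain ⟨r, rfl⟩ := hsurj m
    rw [← map_zsmul] at hm
    have h3 : ι (k • r) = 0 := congrArg Subtype.val hm
    rw [← map_zero ι] at h3
    rcases htf k r (hι h3) with h4 | h4
    · exact Or.inl h4
    · right; rw [h4, map_zero]
  have h2 := eng_of_torsion_free_sub ι.range h h1 htf' (ι.rangeRestrict x) (ι.rangeRestrict y)
  rw [← eng_map] at h2
  have h3 : ι (eng x y n) = 0 := congrArg Subtype.val h2
  rw [← map_zero ι] at h3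
  exact hι h3

/-- torsion-free rings of the variety satisfy the Engel identity -/
theorem eng_of_torsion_free {E : Set (RTerm × RTerm)} {n : ℕ} (h : D2Engel E n)
    (hR : Models E R) (htf : ∀ (k : ℤ) (m : R), k • m = 0 → k = 0 ∨ m = 0) (x y : R) :
    eng x y n = 0 :=
  eng_of_torsion_free_emb h hR htf (U := Unitization ℤ R)
    { toFun := fun a => (a : Unitization ℤ R)
      map_mul' := fun a b => Unitization.inr_mul ℤ a b
      map_zero' := Unitization.inr_zero ℤ
      map_add' := fun a b => Unitization.inr_add ℤ a b } Unitization.inr_injective x y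

end Pool.Agent.NH58.NE
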