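import Pool.Agent.NH58.NEa

/-!
Minimal non-Engel varieties of associative rings are Cross varieties: final assembly.
-/

set_option autoImplicit false

namespace Pool.Agent.NH58.NE

open Pool.Agent.H854R3.NE

variable {R : Type} [NonUnitalRing R]

/-- A quotient in which no iterated commutator vanishes, while each non-zero ideal contains one. -/
theorem exists_eng_quot {x y : R} (hne : ∀ n, eng x y n ≠ 0) :
    ∃ (Q : Type) (_ : NonUnitalRing Q) (φ : R →ₙ+* Q), Function.Surjective φ ∧
      (∀ n, eng (φ x) (φ y) n ≠ 0) ∧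
      ∀ J : TwoSidedIdeal Q, J ≠ ⊥ → ∃ m, eng (φ x) (φ y) m ∈ J := by
  obtain ⟨I, hI, hmax⟩ := exists_max_ideal (fun I : TwoSidedIdeal R => ∀ n, eng x y n ∉ I)
    (by intro n; rw [TwoSidedIdeal.mem_bot]; exact hne n)
    (by
      intro c _ _ hP U hU n hn
      obtain ⟨I, hI, h⟩ := (hU _).1 hn
      exact hP I hI n h)
  obtain ⟨Q, inst, φ, hφ, hker⟩ := exists_quot I
  refine ⟨Q, inst, φ, hφ, ?_, ?_⟩
  · intro n h
    rw [← eng_map, hker] at h
    exact hI n h
  · intro J hJ
    by_contra hcon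
    push Not at hcon
    let J' : TwoSidedIdeal R := TwoSidedIdeal.mk' {x | φ x ∈ J}
      (by change φ 0 ∈ J; rw [map_zero]; exact J.zero_mem)
      (by intro x y hx hy; change φ (x + y) ∈ J; rw [map_add]; exact J.add_mem hx hy)
      (by intro x hx; change φ (-x) ∈ J; rw [map_neg]; exact J.neg_mem hx)
      (by intro x y hy; change φ (x * y) ∈ J; rw [map_mul]; exact J.mul_mem_left _ _ hy)
      (by intro x y hx; change φ (x * y) ∈ J; rw [map_mul]; exact J.mul_mem_right _ _ hx)
    have hJ' : ∀ x, x ∈ J' ↔ φ x ∈ J := fun x => TwoSidedIdeal.mem_mk' _ _ _ _ _ _ x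
    have h1 : J' = I := by
      apply hmax J'
      · intro n
        rw [hJ', eng_map]
        exact hcon n
      · intro x hx
        rw [hJ', (hker x).2 hx]
        exact J.zero_mem
    obtain ⟨y, hy, hy0⟩ := exists_mem_ne hJ
    obtain ⟨x, rfl⟩ := hφ y
    apply hy0
    rw [hker, ← h1, hJ']
    exact hy

/-- A prime ring with torsion has prime characteristic. -/
theorem char_of_prime (hP : PrimeR R) (h : ¬ ∀ (k : ℤ) (m : R), k • m = 0 → k = 0 ∨ m = 0) :
    ∃ p : ℕ, p.Prime ∧ ∀ x : R, p • x = 0 := by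
  classical
  push Not at h
  obtain ⟨k, m, hkm, hk, hm⟩ := h
  have hex : ∃ k : ℕ, 0 < k ∧ ∃ m : R, m ≠ 0 ∧ k • m = 0 := by
    refine ⟨k.natAbs, Int.natAbs_pos.2 hk, m, hm, ?_⟩
    rcases Int.natAbs_eq k with h | h
    · rw [h, natCast_zsmul] at hkm
      exact hkm
    · rw [h, neg_zsmul, natCast_zsmul, neg_eq_zero] at hkm
      exact hkm
  obtain ⟨hp0, m', hm', hpm⟩ := Nat.find_spec hex
  set p := Nat.find hex with hp
  have hmin : ∀ j, j < p → ∀ m : R, m ≠ 0 → j • m = 0 → j = 0 := by
    intro j hj m hm hjm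
    by_contra hj0
    exact Nat.find_min hex hj ⟨Nat.pos_of_ne_zero hj0, m, hm, hjm⟩
  have hprime : p.Prime := by
    rw [Nat.prime_def]
    have h2 : 2 ≤ p := by
      by_contra h2
      have h3 : p = 1 := by omega
      rw [h3, one_smul] at hpm
      exact hm' hpm
    refine ⟨h2, ?_⟩
    rintro a ⟨b, hab⟩
    by_contra hcon
    push Not at hcon
    obtain ⟨ha1, hap⟩ := hcon
    have ha0 : a ≠ 0 := by rintro rfl; rw [zero_mul] at hab; omega
    have hb0 : b ≠ 0 := by rintro rfl; rw [mul_zero] at hab; omega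
    have hb1 : b ≠ 1 := by rintro rfl; rw [mul_one] at hab; exact hap hab.symm
    have ha : a < p := by
      rw [hab]
      calc a = a * 1 := (mul_one a).symm
        _ < a * b := Nat.mul_lt_mul_of_pos_left (by omega) (by omega)
    have hb : b < p := by
      rw [hab]
      calc b = 1 * b := (one_mul b).symm
        _ < a * b := Nat.mul_lt_mul_of_pos_right (by omega) (by omega)
    rw [hab, mul_smul] at hpm
    by_cases h0 : b • m' = 0
    · exact hb0 (hmin b hb m' hm' h0)
    · exact ha0 (hmin a ha _ h0 hpm)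
  refine ⟨p, hprime, fun x => ?_⟩
  rcases hP (p • x) m' (fun r => by
    rw [smul_mul_assoc, smul_mul_assoc, ← mul_smul_comm, hpm, mul_zero]) with h | h
  · exact h
  · exact absurd h hm'

/-- If all the varieties given by `E` and the pairs `(p, q)` are Engel, the variety given by `E`
is Engel. -/
theorem engel_of_all {E : Set (RTerm × RTerm)}
    (hW : ∀ p k : ℕ, p.Prime → 1 ≤ k → IsEngel (E ∪ WId p (p ^ k))) : IsEngel E := by
  by_contra hcon
  obtain ⟨n, hD⟩ := exists_D2Engel hW
  obtain ⟨A, _, x0, y0, hA, hne0⟩ := exists_of_not_engel hcon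
  obtain ⟨Q, _, φ, hφ, hne, hall⟩ := exists_eng_quot hne0
  have hQ : Models E Q := hA.of_surjective φ hφ
  set x := φ x0
  set y := φ y0
  -- no ideals with square zero
  have hsq : ∀ c : Q, c * c = 0 → (∀ r, c * r * c = 0) → c = 0 := by
    intro c h1 h2
    by_contra hc
    obtain ⟨m, hm⟩ := hall (TwoSidedIdeal.span {c}) (ne_bot_of_mem
      (TwoSidedIdeal.subset_span rfl) hc)
    have h3 := eng_mem_of_sq hD hQ (K := TwoSidedIdeal.span {c}) (I := ⊥) (by
      intro a ha b hb
      rw [TwoSidedIdeal.mem_bot]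
      exact span_mul_zero (by rintro a rfl b rfl; exact h1) (by
        rintro a rfl b rfl r; exact h2 r) ha hb) hm y
    rw [TwoSidedIdeal.mem_bot, ← eng_add] at h3
    exact hne _ h3
  -- the quotient is prime
  have hP : PrimeR Q := by
    intro u v huv
    by_contra hcon
    push Not at hcon
    obtain ⟨hu, hv⟩ := hcon
    let K1 : TwoSidedIdeal Q := TwoSidedIdeal.mk' {z | ∀ g, z * g * v = 0}
      (by intro g; rw [zero_mul, zero_mul])
      (by intro x y hx hy g; rw [add_mul, add_mul, hx g, hy g, add_zero])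
      (by intro x hx g; rw [neg_mul, neg_mul, hx g, neg_zero])
      (by intro x y hy g; rw [mul_assoc x y g, mul_assoc x, hy g, mul_zero])
      (by intro x y hx g; rw [mul_assoc x y g]; exact hx (y * g))
    have hK1 : ∀ z, z ∈ K1 ↔ ∀ g, z * g * v = 0 := fun z => TwoSidedIdeal.mem_mk' _ _ _ _ _ _ z
    obtain ⟨i, hi⟩ := hall K1 (ne_bot_of_mem ((hK1 u).2 huv) hu)
    rw [hK1] at hi
    let K2 : TwoSidedIdeal Q := TwoSidedIdeal.mk' {z | ∀ g, eng x y i * g * z = 0}
      (by intro g; rw [mul_zero])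
      (by intro x y hx hy g; rw [mul_add, hx g, hy g, add_zero])
      (by intro x hx g; rw [mul_neg, hx g, neg_zero])
      (by intro a b hb g; rw [← mul_assoc, mul_assoc _ g a]; exact hb (g * a))
      (by intro a b ha g; rw [← mul_assoc, ha g, zero_mul])
    have hK2 : ∀ z, z ∈ K2 ↔ ∀ g, eng x y i * g * z = 0 :=
      fun z => TwoSidedIdeal.mem_mk' _ _ _ _ _ _ z
    obtain ⟨j, hj⟩ := hall K2 (ne_bot_of_mem ((hK2 v).2 hi) hv)
    -- both ideals contain a common iterated commutator
    let K3 : TwoSidedIdeal Q := TwoSidedIdeal.mk' {z | ∀ g, z * g * eng x y j = 0}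
      (by intro g; rw [zero_mul, zero_mul])
      (by intro x y hx hy g; rw [add_mul, add_mul, hx g, hy g, add_zero])
      (by intro x hx g; rw [neg_mul, neg_mul, hx g, neg_zero])
      (by intro a b hb g; rw [mul_assoc a b g, mul_assoc a, hb g, mul_zero])
      (by intro a b ha g; rw [mul_assoc a b g]; exact ha (b * g))
    have hK3 : ∀ z, z ∈ K3 ↔ ∀ g, z * g * eng x y j = 0 :=
      fun z => TwoSidedIdeal.mem_mk' _ _ _ _ _ _ z
    have hup : ∀ (K : TwoSidedIdeal Q) (i k : ℕ), eng x y i ∈ K → eng x y (i + k) ∈ K := by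
      intro K i k h
      induction k with
      | zero => exact h
      | succ k ih => exact K.sub_mem (K.mul_mem_right _ _ ih) (K.mul_mem_left _ _ ih)
    have h1 : eng x y i ∈ K3 := (hK3 _).2 (fun g => (hK2 _).1 hj g)
    have h2 : eng x y (i + j) ∈ K3 := hup K3 i j h1
    let K4 : TwoSidedIdeal Q := TwoSidedIdeal.mk' {z | ∀ g, eng x y (i + j) * g * z = 0}
      (by intro g; rw [mul_zero])
      (by intro x y hx hy g; rw [mul_add, hx g, hy g, add_zero])
      (by intro x hx g; rw [mul_neg, hx g, neg_zero])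
      (by intro a b hb g; rw [← mul_assoc, mul_assoc _ g a]; exact hb (g * a))
      (by intro a b ha g; rw [← mul_assoc, ha g, zero_mul])
    have hK4 : ∀ z, z ∈ K4 ↔ ∀ g, eng x y (i + j) * g * z = 0 :=
      fun z => TwoSidedIdeal.mem_mk' _ _ _ _ _ _ z
    have h3 : eng x y j ∈ K4 := (hK4 _).2 (fun g => (hK3 _).1 h2 g)
    have h4 : eng x y (i + j) ∈ K4 := by
      have := hup K4 j i h3
      rwa [add_comm] at this
    set a := eng x y (i + j) with ha
    have haga : ∀ g, a * g * a = 0 := (hK4 _).1 h4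
    have h5 : a * a = 0 := by
      apply hsq
      · have : a * a * (a * a) = (a * a * a) * a := by noncomm_ring
        rw [this, haga a, zero_mul]
      · intro r
        have : a * a * r * (a * a) = a * (a * r * a) * a := by noncomm_ring
        rw [this, haga r, mul_zero, zero_mul]
    exact hne _ (hsq a h5 haga)
  by_cases htf : ∀ (k : ℤ) (m : Q), k • m = 0 → k = 0 ∨ m = 0
  · exact hne n (eng_of_torsion_free hD hQ htf x y)
  · obtain ⟨p, hp, hpQ⟩ := char_of_prime hP htf
    have : Fact p.Prime := ⟨hp⟩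
    have h1 := prime_comm hD (hW p 1 hp le_rfl) hQ hpQ hP x y
    apply hne 1
    change x * y - y * x = 0
    rw [h1, sub_self]

/-- **Every minimal non-Engel variety of associative rings is a Cross variety.** -/
theorem cross_of_minimal_nonEngel (E : Set (RTerm × RTerm)) (h : MinimalNonEngel E) :
    IsCross E := by
  obtain ⟨hne, hmin⟩ := h
  have h1 : ¬ ∀ p k : ℕ, p.Prime → 1 ≤ k → IsEngel (E ∪ WId p (p ^ k)) :=
    fun h => hne (engel_of_all h)
  push Not at h1
  obtain ⟨p, k, hp, hk, hW⟩ := h1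
  have : Fact p.Prime := ⟨hp⟩
  apply cross_of_sub (p := p) hk
  have h2 : SubvarietyOf E (E ∪ WId p (p ^ k)) := by
    by_contra hcon
    exact hW (hmin _ (fun R _ hR e he => hR e (Or.inl he)) hcon)
  intro R _ hR e he
  exact h2 R hR e (Or.inr he)

end Pool.Agent.NH58.NE
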