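import Mathlib

/-! # Determinants of network-type matrices and small integral solutions -/

namespace Pool.Agent.NH58.SmallSol

open Matrix

/-- A network row: at most one entry `+1`, at most one entry `-1`, all other entries `0`. -/
def NetRow {C : Type*} [DecidableEq C] (v : C → ℤ) : Prop :=
  ∃ a b : Option C, ∀ c, v c = (if a = some c then 1 else 0) - (if b = some c then 1 else 0)

lemma NetRow.comp {C D : Type*} [DecidableEq C] [DecidableEq D] {v : C → ℤ} (h : NetRow v)
    (β : D → C) (hβ : Function.Injective β) : NetRow (fun d => v (β d)) := by
  classical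
  obtain ⟨a, b, hab⟩ := h
  have key : ∀ a : Option C, ∃ a' : Option D, ∀ d, (a' = some d ↔ a = some (β d)) := by
    intro a
    by_cases h : ∃ d, a = some (β d)
    · obtain ⟨d0, hd0⟩ := h
      refine ⟨some d0, fun d => ?_⟩
      rw [hd0]
      simp only [Option.some.injEq]
      exact hβ.eq_iff.symm
    · refine ⟨none, fun d => ?_⟩
      constructor
      · intro h'; exact absurd h' (by simp)
      · intro h'; exact absurd ⟨d, h'⟩ h
  obtain ⟨a', ha'⟩ := key a
  obtain ⟨b', hb'⟩ := key b
  refine ⟨a', b', fun d => ?_⟩
  simp only [hab, ha', hb']

lemma sum_ite_some {C : Type*} [DecidableEq C] [Fintype C] (a : Option C) :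
    (∑ c : C, (if a = some c then (1 : ℤ) else 0)) = if a = none then 0 else 1 := by
  cases a with
  | none => simp
  | some d => simp

/-- A square matrix all of whose rows are network rows has determinant `0` or `±1`. -/
theorem abs_det_le_one_of_netRow : ∀ (r : ℕ) (M : Matrix (Fin r) (Fin r) ℤ),
    (∀ i, NetRow (M i)) → |M.det| ≤ 1 := by
  intro r
  induction r with
  | zero => intro M _; simp
  | succ r ih =>
    intro M hM
    by_cases hs : ∀ i, ∑ j, M i j = 0
    · have : M.det = 0 := by
        by_contra hne
        have h1 : M *ᵥ (fun _ => (1 : ℤ)) = 0 := by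
          ext i
          simp [Matrix.mulVec, dotProduct, hs i]
        have h2 := Matrix.exists_mulVec_eq_zero_iff (M := M)
        apply hne
        rw [← h2]
        refine ⟨fun _ => 1, ?_, h1⟩
        intro h
        have := congrFun h 0
        simp at this
      rw [this]; simp
    · push Not at hs
      obtain ⟨i, hi⟩ := hs
      obtain ⟨a, b, hab⟩ := hM i
      have hsum : ∑ j, M i j = (if a = none then (0 : ℤ) else 1) - (if b = none then (0 : ℤ) else 1) := by
        rw [← sum_ite_some, ← sum_ite_some, ← Finset.sum_sub_distrib]
        exact Finset.sum_congr rfl fun j _ => hab j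
      -- exactly one entry
      have hone : ∃ (c : Fin (r+1)) (e : ℤ), |e| = 1 ∧ ∀ j, M i j = if j = c then e else 0 := by
        rcases a with _ | a
        · rcases b with _ | b
          · exfalso; apply hi; rw [hsum]; simp
          · refine ⟨b, -1, by simp, fun j => ?_⟩
            rw [hab j]
            by_cases h : j = b
            · simp [h]
            · have : ¬ b = j := fun h' => h h'.symm
              simp [h, this]
        · rcases b with _ | b
          · refine ⟨a, 1, by simp, fun j => ?_⟩
            rw [hab j]
            by_cases h : j = a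
            · simp [h]
            · have : ¬ a = j := fun h' => h h'.symm
              simp [h, this]
          · exfalso; apply hi; rw [hsum]; simp
      obtain ⟨c, e, he, hc⟩ := hone
      rw [Matrix.det_succ_row M i]
      rw [Finset.sum_eq_single c]
      · rw [hc c, if_pos rfl, abs_mul, abs_mul, he, abs_pow]
        simp only [abs_neg, abs_one, one_pow, one_mul]
        apply ih
        intro i'
        exact (hM (i.succAbove i')).comp (c.succAbove) Fin.succAbove_right_injective
      · intro j _ hj
        rw [hc j, if_neg hj]; simp
      · intro h; exact absurd (Finset.mem_univ _) h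

/-- If every row of a square integer matrix is a sum of two network rows, the determinant is at
most `2 ^ r` in absolute value. -/
theorem abs_det_le_two_pow {r : ℕ} (P Q : Matrix (Fin r) (Fin r) ℤ)
    (hP : ∀ i, NetRow (P i)) (hQ : ∀ i, NetRow (Q i)) : |(P + Q).det| ≤ 2 ^ r := by
  have h1 : (P + Q).det = ∑ s : Finset (Fin r), (Matrix.of (s.piecewise (fun i => P i) (fun i => Q i))).det := by
    have := (Matrix.detRowAlternating (n := Fin r) (R := ℤ)).toMultilinearMap.map_add_univ
      (fun i => P i) (fun i => Q i)
    exact this
  rw [h1]
  calc |∑ s : Finset (Fin r), (Matrix.of (s.piecewise (fun i => P i) (fun i => Q i))).det|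
      ≤ ∑ s : Finset (Fin r), |(Matrix.of (s.piecewise (fun i => P i) (fun i => Q i))).det| :=
        Finset.abs_sum_le_sum_abs _ _
    _ ≤ ∑ s : Finset (Fin r), 1 := by
        apply Finset.sum_le_sum
        intro s _
        apply abs_det_le_one_of_netRow
        intro i
        by_cases hi : i ∈ s
        · have : (Matrix.of (s.piecewise (fun i => P i) (fun i => Q i))) i = P i := by
            ext j; simp [Matrix.of_apply, Finset.piecewise, hi]
          rw [this]; exact hP i
        · have : (Matrix.of (s.piecewise (fun i => P i) (fun i => Q i))) i = Q i := by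
            ext j; simp [Matrix.of_apply, Finset.piecewise, hi]
          rw [this]; exact hQ i
    _ = 2 ^ r := by simp

/-- Every element that is a sum of a list of terms `a c` in a finite group is a sum of a list of
length smaller than the order of the group. -/
theorem short_list {G : Type*} [AddCommGroup G] [Finite G] {N : Type*} (a : N → G) :
    ∀ (k : ℕ) (l : List N), l.length = k →
      ∃ l' : List N, l'.length < Nat.card G ∧ (l'.map a).sum = (l.map a).sum := by
  intro k
  induction k using Nat.strong_induction_on with
  | _ k ih =>
    intro l hl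
    by_cases hk : k < Nat.card G
    · exact ⟨l, by omega, rfl⟩
    · have := Fintype.ofFinite G
      push Not at hk
      have hcard : Fintype.card G < Fintype.card (Fin (k + 1)) := by
        rw [Fintype.card_fin, ← Nat.card_eq_fintype_card]; omega
      obtain ⟨i, j, hij, hf⟩ := Fintype.exists_ne_map_eq_of_card_lt
        (fun i : Fin (k+1) => ((l.take i).map a).sum) hcard
      wlog hlt : i < j generalizing i j
      · exact this j i hij.symm hf.symm (lt_of_le_of_ne (not_lt.mp hlt) hij.symm)
      have hf : ((l.take i).map a).sum = ((l.take j).map a).sum := hf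
      have hlen : (l.take i ++ l.drop j).length < k := by
        rw [List.length_append, List.length_take, List.length_drop, hl]
        have h1 : (i : ℕ) < j := hlt
        have h2 : (j : ℕ) < k + 1 := j.2
        omega
      obtain ⟨l', hl', hs'⟩ := ih _ hlen (l.take i ++ l.drop j) rfl
      refine ⟨l', hl', hs'.trans ?_⟩
      rw [List.map_append, List.sum_append, hf, ← List.sum_append, ← List.map_append,
        List.take_append_drop]

/-- The lattice `B ℤ^r` has index `|det B|` in `ℤ^r`. -/
theorem card_quotient_range {r : ℕ} (B : Matrix (Fin r) (Fin r) ℤ) (hB : B.det ≠ 0) :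
    Nat.card ((Fin r → ℤ) ⧸ LinearMap.range B.mulVecLin) = B.det.natAbs := by
  have hinj : Function.Injective B.mulVecLin := by
    rw [← LinearMap.ker_eq_bot, LinearMap.ker_eq_bot']
    intro v hv
    by_contra hne
    exact hB (Matrix.exists_mulVec_eq_zero_iff.mp ⟨v, hne, hv⟩)
  have h := Submodule.natAbs_det_equiv (LinearMap.range B.mulVecLin)
    (LinearEquiv.ofInjective B.mulVecLin hinj)
  rw [← h]
  have h2 : ((LinearMap.range B.mulVecLin).subtype ∘ₗ
      AddMonoidHom.toIntLinearMap
        ((LinearEquiv.ofInjective B.mulVecLin hinj : (Fin r → ℤ) ≃ₗ[ℤ] _) :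
          (Fin r → ℤ) →+ LinearMap.range B.mulVecLin)) = B.mulVecLin := by
    ext v
    simp
  rw [h2, ← Matrix.toLin'_apply', LinearMap.det_toLin']

end Pool.Agent.NH58.SmallSol
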