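import Pool.Agent.NH58.Net

/-! # Small integral solutions of linear systems with bounded minors -/

namespace Pool.Agent.NH58.SmallSol

open Matrix

/-- If no minor of size `r + 1` is nonzero, every row is a rational combination of the rows `σ`
of a nonzero minor of size `r`. -/
theorem row_combination {R C : Type*} (A : Matrix R C ℤ) {r : ℕ}
    (hmax : ∀ (σ : Fin (r + 1) → R) (β : Fin (r + 1) → C), (A.submatrix σ β).det = 0)
    (σ : Fin r → R) (β : Fin r → C) (hdet : (A.submatrix σ β).det ≠ 0) (ρ : R) :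
    ∃ w : Fin r → ℚ, ∀ c, (A ρ c : ℚ) = ∑ j, w j * (A (σ j) c : ℚ) := by
  classical
  set Bq : Matrix (Fin r) (Fin r) ℚ := (A.submatrix σ β).map (Int.cast : ℤ → ℚ) with hBq
  have hBdet : Bq.det = ((A.submatrix σ β).det : ℚ) := by
    rw [hBq]; exact (Int.cast_det _).symm
  have hBunit : IsUnit Bq.det := by
    rw [hBdet]; exact isUnit_iff_ne_zero.mpr (by exact_mod_cast hdet)
  have : Invertible Bq := Matrix.invertibleOfIsUnitDet Bq hBunit
  refine ⟨(fun i => (A ρ (β i) : ℚ)) ᵥ* Bq⁻¹, fun c => ?_⟩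
  -- bordered determinant
  have h0 : (Matrix.fromBlocks Bq (Matrix.of fun (i : Fin r) (_ : Unit) => (A (σ i) c : ℚ))
      (Matrix.of fun (_ : Unit) (j : Fin r) => (A ρ (β j) : ℚ))
      (Matrix.of fun (_ : Unit) (_ : Unit) => (A ρ c : ℚ))).det = 0 := by
    have e : Fin r ⊕ Unit ≃ Fin (r + 1) := Fintype.equivFinOfCardEq (by simp)
    have h1 := hmax ((Sum.elim σ (fun _ : Unit => ρ)) ∘ e.symm) ((Sum.elim β (fun _ : Unit => c)) ∘ e.symm)
    have h2 : ((A.submatrix (Sum.elim σ (fun _ : Unit => ρ)) (Sum.elim β (fun _ : Unit => c)))).det = 0 := by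
      rw [← Matrix.det_submatrix_equiv_self e.symm]
      exact h1
    have h3 : (Matrix.fromBlocks Bq (Matrix.of fun (i : Fin r) (_ : Unit) => (A (σ i) c : ℚ))
      (Matrix.of fun (_ : Unit) (j : Fin r) => (A ρ (β j) : ℚ))
      (Matrix.of fun (_ : Unit) (_ : Unit) => (A ρ c : ℚ))) =
        (A.submatrix (Sum.elim σ (fun _ : Unit => ρ)) (Sum.elim β (fun _ : Unit => c))).map
          (Int.cast : ℤ → ℚ) := by
      ext i j
      rcases i with i | i <;> rcases j with j | j <;> simp [Bq]
    rw [h3, ← Int.cast_det, h2]; simp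
  rw [Matrix.det_fromBlocks₁₁] at h0
  have h4 := (mul_eq_zero.mp h0).resolve_left hBunit.ne_zero
  rw [Matrix.det_unique] at h4
  simp only [Matrix.sub_apply, Matrix.of_apply] at h4
  have h5 := sub_eq_zero.mp h4
  rw [h5, Matrix.mul_apply]
  apply Finset.sum_congr rfl
  intro j _
  rw [Matrix.of_apply]
  congr 1
  rw [Matrix.invOf_eq_nonsing_inv]
  rfl

/-- In a finite group every integral combination is a sum of a list. -/
theorem exists_list_of_zsmul {G : Type*} [AddCommGroup G] [Finite G] {N : Type*}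
    (a : N → G) (x : N → ℤ) (s : Finset N) :
    ∃ l : List N, (l.map a).sum = ∑ c ∈ s, x c • a c := by
  classical
  induction s using Finset.induction_on with
  | empty => exact ⟨[], by simp⟩
  | insert c s hc ih =>
    obtain ⟨l, hl⟩ := ih
    refine ⟨List.replicate (x c % (Nat.card G : ℤ)).toNat c ++ l, ?_⟩
    rw [List.map_append, List.sum_append, hl, Finset.sum_insert hc, List.map_replicate,
      List.sum_replicate]
    congr 1
    have hpos : (0 : ℤ) < Nat.card G := by exact_mod_cast Nat.card_pos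
    have h1 : ((x c % (Nat.card G : ℤ)).toNat : ℤ) = x c % (Nat.card G : ℤ) :=
      Int.toNat_of_nonneg (Int.emod_nonneg _ hpos.ne')
    rw [← natCast_zsmul, h1]
    conv_rhs => rw [← Int.emod_add_mul_ediv (x c) (Nat.card G : ℤ)]
    rw [add_zsmul, mul_comm, mul_zsmul]
    simp

theorem sum_list_eq {N : Type*} [Fintype N] (l : List N) :
    ∃ cnt : N → ℕ, (∀ c, cnt c ≤ l.length) ∧
      ∀ g : N → ℤ, (l.map g).sum = ∑ c, (cnt c : ℤ) * g c := by
  classical
  refine ⟨fun c => l.count c, fun c => List.count_le_length, fun g => ?_⟩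
  rw [Finset.sum_list_map_count]
  have h4 : ∑ c ∈ l.toFinset, l.count c • g c = ∑ c : N, l.count c • g c := by
    apply Finset.sum_subset (Finset.subset_univ _)
    intro c _ hc
    rw [List.mem_toFinset] at hc
    rw [List.count_eq_zero_of_not_mem hc, zero_smul]
  rw [h4]
  refine Finset.sum_congr rfl fun c _ => ?_
  rw [nsmul_eq_mul]

/-- **Small integral solutions.**  If the integral system `A y = b` has an integral solution and
all minors of `(A | b)` are at most `m` in absolute value, it has an integral solution all of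
whose entries are at most `m` in absolute value. -/
theorem small_solution {R C : Type*} [Fintype C] [DecidableEq C] (A : Matrix R C ℤ) (b : R → ℤ)
    (m : ℤ)
    (hm : ∀ (r : ℕ) (σ : Fin r → R) (β : Fin r → C), |(A.submatrix σ β).det| ≤ m)
    (hb : ∀ (r : ℕ) (σ : Fin r → R) (β : Fin r → C) (i : Fin r), Function.Injective β →
      |((A.submatrix σ β).updateCol i (fun k => b (σ k))).det| ≤ m)
    (x : C → ℤ) (hx : ∀ ρ, ∑ c, A ρ c * x c = b ρ) :
    ∃ y : C → ℤ, (∀ ρ, ∑ c, A ρ c * y c = b ρ) ∧ ∀ c, |y c| ≤ m := by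
  classical
  -- the rank
  have hinj : ∀ (r : ℕ) (σ : Fin r → R) (β : Fin r → C), (A.submatrix σ β).det ≠ 0 →
      Function.Injective β := by
    intro r σ β h i j hij
    by_contra hne
    apply h
    apply Matrix.det_zero_of_column_eq hne
    intro k
    simp [hij]
  have hle : ∀ (r : ℕ), (∃ (σ : Fin r → R) (β : Fin r → C), (A.submatrix σ β).det ≠ 0) →
      r ≤ Fintype.card C := by
    rintro r ⟨σ, β, h⟩
    simpa using Fintype.card_le_of_injective β (hinj r σ β h)
  set P : ℕ → Prop := fun r => ∃ (σ : Fin r → R) (β : Fin r → C), (A.submatrix σ β).det ≠ 0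
    with hP
  have hP0 : P 0 := ⟨Fin.elim0, Fin.elim0, by simp⟩
  obtain ⟨r, hPr, hPr1⟩ : ∃ r, P r ∧ ¬ P (r + 1) := by
    refine ⟨Nat.findGreatest P (Fintype.card C), Nat.findGreatest_spec (Nat.zero_le _) hP0, ?_⟩
    intro h
    have := Nat.le_findGreatest (hle _ h) h
    omega
  have hmax : ∀ (σ : Fin (r + 1) → R) (β : Fin (r + 1) → C), (A.submatrix σ β).det = 0 := by
    intro σ β
    by_contra h
    exact hPr1 ⟨σ, β, h⟩
  -- the largest minor
  obtain ⟨σ, β, hdet, hbig⟩ : ∃ (σ : Fin r → R) (β : Fin r → C), (A.submatrix σ β).det ≠ 0 ∧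
      ∀ (σ' : Fin r → R) (β' : Fin r → C),
        (A.submatrix σ' β').det.natAbs ≤ (A.submatrix σ β).det.natAbs := by
    set Q : ℕ → Prop := fun k => ∃ (σ : Fin r → R) (β : Fin r → C),
      (A.submatrix σ β).det.natAbs = k with hQ
    have hQle : ∀ k, Q k → k ≤ m.natAbs := by
      rintro k ⟨σ, β, rfl⟩
      have := hm r σ β
      have h0 : (((A.submatrix σ β).det.natAbs : ℕ) : ℤ) = |(A.submatrix σ β).det| :=
        Int.natCast_natAbs _
      omega
    obtain ⟨σ0, β0, h0⟩ := hPr
    have hQ0 : Q (A.submatrix σ0 β0).det.natAbs := ⟨σ0, β0, rfl⟩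
    obtain ⟨σ, β, h1⟩ := Nat.findGreatest_spec (hQle _ hQ0) hQ0
    refine ⟨σ, β, ?_, ?_⟩
    · intro h
      rw [h] at h1
      have h2 := Nat.le_findGreatest (hQle _ hQ0) hQ0
      rw [← h1] at h2
      have : (A.submatrix σ0 β0).det.natAbs = 0 := by simpa using h2
      exact h0 (Int.natAbs_eq_zero.mp this)
    · intro σ' β'
      rw [h1]
      exact Nat.le_findGreatest (hQle _ ⟨σ', β', rfl⟩) ⟨σ', β', rfl⟩
  have hβ := hinj r σ β hdet
  set B := A.submatrix σ β with hBdef
  -- the finite quotient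
  set L := LinearMap.range B.mulVecLin with hL
  have hcard : Nat.card ((Fin r → ℤ) ⧸ L) = B.det.natAbs := card_quotient_range B hdet
  have hfin : Finite ((Fin r → ℤ) ⧸ L) := by
    apply Nat.finite_of_card_ne_zero
    rw [hcard]
    exact fun h => hdet (Int.natAbs_eq_zero.mp h)
  let N := {c : C // ¬ ∃ i, β i = c}
  let a : N → ((Fin r → ℤ) ⧸ L) := fun c => L.mkQ (fun i => A (σ i) c.1)
  obtain ⟨l0, hl0⟩ := exists_list_of_zsmul a (fun c => x c.1) Finset.univ
  obtain ⟨l, hlen, hl⟩ := short_list a _ l0 rfl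
  -- splitting sums
  have hsplit : ∀ f : C → ℤ, ∑ c, f c = ∑ j, f (β j) + ∑ c : N, f c.1 := by
    intro f
    rw [← Fintype.sum_subtype_add_sum_subtype (fun c => ∃ i, β i = c) f]
    congr 1
    let e : Fin r ≃ {c // ∃ i, β i = c} := Equiv.ofBijective (fun j => ⟨β j, j, rfl⟩)
      ⟨fun i j hij => hβ (congrArg Subtype.val hij), fun ⟨c, j, hj⟩ => ⟨j, Subtype.ext hj⟩⟩
    exact (e.sum_comp (fun c => f c.1)).symm
  have hmem : (fun i => b (σ i)) - (l.map (fun c : N => fun i => A (σ i) c.1)).sum ∈ L := by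
    rw [← Submodule.Quotient.mk_eq_zero, ← Submodule.mkQ_apply, map_sub, map_list_sum, List.map_map]
    have h1 : (l.map (L.mkQ ∘ fun c : N => fun i => A (σ i) c.1)).sum = (l.map a).sum := rfl
    rw [h1, hl, hl0, sub_eq_zero]
    have h2 : (fun i => b (σ i)) = B *ᵥ (fun j => x (β j)) +
        ∑ c : N, x c.1 • (fun i => A (σ i) c.1) := by
      ext i
      rw [← hx (σ i), hsplit]
      simp only [Pi.add_apply, Finset.sum_apply, Pi.smul_apply, smul_eq_mul, Matrix.mulVec,
        dotProduct, hBdef, Matrix.submatrix_apply]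
      congr 1
      exact Finset.sum_congr rfl fun c _ => mul_comm _ _
    rw [h2, map_add, map_sum]
    have h3 : L.mkQ (B *ᵥ fun j => x (β j)) = 0 := by
      rw [Submodule.mkQ_apply, Submodule.Quotient.mk_eq_zero]
      exact ⟨fun j => x (β j), rfl⟩
    rw [h3, zero_add]
    exact Finset.sum_congr rfl fun c _ => map_zsmul _ _ _
  obtain ⟨v, hv⟩ := hmem
  have hv : B *ᵥ v = (fun i => b (σ i)) - (l.map (fun c : N => fun i => A (σ i) c.1)).sum := hv
  -- the bound for `v`
  have hΔm : (B.det.natAbs : ℤ) ≤ m := by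
    have := hm r σ β
    rwa [← Int.natCast_natAbs] at this
  have hlen' : l.length + 1 ≤ B.det.natAbs := by rw [hcard] at hlen; omega
  have hcr : ∀ c : C, ∀ i, |Matrix.cramer B (fun k => A (σ k) c) i| ≤ (B.det.natAbs : ℤ) := by
    intro c i
    rw [Matrix.cramer_apply]
    have h1 : B.updateCol i (fun k => A (σ k) c) = A.submatrix σ (Function.update β i c) := by
      ext k j
      by_cases hj : j = i
      · subst hj; simp
      · simp [hj, hBdef]
    rw [h1, ← Int.natCast_natAbs]
    exact_mod_cast hbig σ (Function.update β i c)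
  have hcrl : ∀ (l : List N) (i : Fin r),
      |Matrix.cramer B (l.map (fun c : N => fun i => A (σ i) c.1)).sum i| ≤
        (l.length : ℤ) * (B.det.natAbs : ℤ) := by
    intro l i
    induction l with
    | nil => simp
    | cons c l ih =>
      rw [List.map_cons, List.sum_cons, map_add, Pi.add_apply]
      refine (abs_add_le _ _).trans ?_
      have := hcr c.1 i
      have h9 : ((c :: l).length : ℤ) = (l.length : ℤ) + 1 := by simp
      rw [h9]
      linarith
  have hvb : ∀ i, |v i| ≤ m := by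
    intro i
    have h1 : Matrix.cramer B (B *ᵥ v) i = B.det * v i := by
      rw [Matrix.cramer_eq_adjugate_mulVec, Matrix.mulVec_mulVec, Matrix.adjugate_mul,
        Matrix.smul_mulVec, Matrix.one_mulVec]
      rfl
    rw [hv, map_sub, Pi.sub_apply] at h1
    have h2 : |Matrix.cramer B (fun i => b (σ i)) i| ≤ m := by
      rw [Matrix.cramer_apply]
      exact hb r σ β i hβ
    have h3 := hcrl l i
    have h4 : |B.det * v i| ≤ m + (l.length : ℤ) * (B.det.natAbs : ℤ) := by
      rw [← h1]
      exact (abs_sub _ _).trans (by linarith)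
    rw [abs_mul, ← Int.natCast_natAbs B.det] at h4
    have h5 : (1 : ℤ) ≤ (B.det.natAbs : ℤ) := by omega
    have h6 : (l.length : ℤ) ≤ (B.det.natAbs : ℤ) - 1 := by omega
    have h7 : (B.det.natAbs : ℤ) * |v i| ≤ m + ((B.det.natAbs : ℤ) - 1) * (B.det.natAbs : ℤ) := by
      nlinarith
    have h8 : (B.det.natAbs : ℤ) * |v i| ≤ (B.det.natAbs : ℤ) * m := by
      nlinarith
    exact le_of_mul_le_mul_left h8 (by linarith)
  -- the solution
  obtain ⟨cnt, hcnt, hcs⟩ := sum_list_eq l
  let y : C → ℤ := fun c => if h : ∃ i, β i = c then v h.choose else (cnt ⟨c, h⟩ : ℤ)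
  have hyβ : ∀ j, y (β j) = v j := by
    intro j
    have h : ∃ i, β i = β j := ⟨j, rfl⟩
    have : h.choose = j := hβ h.choose_spec
    simp only [y]
    rw [dif_pos h, this]
  have hyN : ∀ c : N, y c.1 = (cnt c : ℤ) := by
    intro c
    simp only [y]
    rw [dif_neg c.2]
  have hyσ : ∀ i, ∑ c, A (σ i) c * y c = b (σ i) := by
    intro i
    rw [hsplit]
    have h1 : ∑ j, A (σ i) (β j) * y (β j) = (B *ᵥ v) i := by
      simp only [hyβ]
      rfl
    have h2 : ∑ c : N, A (σ i) c.1 * y c.1 = (l.map (fun c : N => fun i => A (σ i) c.1)).sum i := by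
      have h3 : (l.map (fun c : N => fun i => A (σ i) c.1)).sum i
          = (l.map (fun c : N => A (σ i) c.1)).sum := by
        have : ∀ l : List N, (l.map (fun c : N => fun i => A (σ i) c.1)).sum i
          = (l.map (fun c : N => A (σ i) c.1)).sum := by
          intro l
          induction l with
          | nil => simp
          | cons c l ih => simp only [List.map_cons, List.sum_cons, Pi.add_apply, ih]
        exact this l
      refine Eq.trans ?_ ((hcs (fun c : N => A (σ i) c.1)).symm.trans h3.symm)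
      refine Finset.sum_congr rfl fun c _ => ?_
      rw [hyN c, mul_comm]
    rw [h1, h2, hv]
    simp
  refine ⟨y, ?_, ?_⟩
  · intro ρ
    obtain ⟨w, hw⟩ := row_combination A hmax σ β hdet ρ
    have key : ∀ z : C → ℤ, ((∑ c, A ρ c * z c : ℤ) : ℚ) =
        ∑ j, w j * ((∑ c, A (σ j) c * z c : ℤ) : ℚ) := by
      intro z
      push_cast
      simp only [hw, Finset.sum_mul, Finset.mul_sum]
      rw [Finset.sum_comm]
      refine Finset.sum_congr rfl fun j _ => Finset.sum_congr rfl fun c _ => by ring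
    have h1 := key y
    have h2 := key x
    simp only [hyσ] at h1
    simp only [hx] at h2
    rw [← h2] at h1
    exact_mod_cast h1
  · intro c
    by_cases h : ∃ i, β i = c
    · obtain ⟨i, rfl⟩ := h
      rw [hyβ]; exact hvb i
    · have h1 := hyN ⟨c, h⟩
      simp only at h1
      rw [h1]
      have h2 := hcnt ⟨c, h⟩
      rw [abs_of_nonneg (by positivity)]
      omega

/-- **Small rational solutions.**  If the integral system `A y = b` has a solution in a field of
characteristic `0` and all minors of `(A | b)` are at most `m` in absolute value, it has a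
rational solution all of whose entries are at most `m` in absolute value. -/
theorem small_rational_solution {R C K : Type*} [Field K] [CharZero K] [Fintype C]
    [DecidableEq C] (A : Matrix R C ℤ) (b : R → ℤ) (m : ℤ) (hm0 : 0 ≤ m)
    (hb : ∀ (r : ℕ) (σ : Fin r → R) (β : Fin r → C) (i : Fin r), Function.Injective β →
      |((A.submatrix σ β).updateCol i (fun k => b (σ k))).det| ≤ m)
    (x : C → K) (hx : ∀ ρ, ∑ c, (A ρ c : K) * x c = (b ρ : K)) :
    ∃ y : C → ℚ, (∀ ρ, ∑ c, (A ρ c : ℚ) * y c = (b ρ : ℚ)) ∧ ∀ c, |y c| ≤ (m : ℚ) := by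
  classical
  have hinj : ∀ (r : ℕ) (σ : Fin r → R) (β : Fin r → C), (A.submatrix σ β).det ≠ 0 →
      Function.Injective β := by
    intro r σ β h i j hij
    by_contra hne
    apply h
    apply Matrix.det_zero_of_column_eq hne
    intro k
    simp [hij]
  have hle : ∀ (r : ℕ), (∃ (σ : Fin r → R) (β : Fin r → C), (A.submatrix σ β).det ≠ 0) →
      r ≤ Fintype.card C := by
    rintro r ⟨σ, β, h⟩
    simpa using Fintype.card_le_of_injective β (hinj r σ β h)
  set P : ℕ → Prop := fun r => ∃ (σ : Fin r → R) (β : Fin r → C), (A.submatrix σ β).det ≠ 0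
    with hP
  have hP0 : P 0 := ⟨Fin.elim0, Fin.elim0, by simp⟩
  obtain ⟨r, hPr, hPr1⟩ : ∃ r, P r ∧ ¬ P (r + 1) := by
    refine ⟨Nat.findGreatest P (Fintype.card C), Nat.findGreatest_spec (Nat.zero_le _) hP0, ?_⟩
    intro h
    have := Nat.le_findGreatest (hle _ h) h
    omega
  have hmax : ∀ (σ : Fin (r + 1) → R) (β : Fin (r + 1) → C), (A.submatrix σ β).det = 0 := by
    intro σ β
    by_contra h
    exact hPr1 ⟨σ, β, h⟩
  obtain ⟨σ, β, hdet⟩ := hPr
  have hβ := hinj r σ β hdet
  set B := A.submatrix σ β with hBdef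
  -- the integral vector `det B • B⁻¹ b`
  set v : Fin r → ℤ := Matrix.cramer B (fun i => b (σ i)) with hv
  have hBv : B *ᵥ v = B.det • (fun i => b (σ i)) := Matrix.mulVec_cramer _ _
  have hvb : ∀ i, |v i| ≤ m := by
    intro i
    rw [hv, Matrix.cramer_apply]
    exact hb r σ β i hβ
  have hdQ : (B.det : ℚ) ≠ 0 := by exact_mod_cast hdet
  let y : C → ℚ := fun c => if h : ∃ i, β i = c then (v h.choose : ℚ) / (B.det : ℚ) else 0
  have hyβ : ∀ j, y (β j) = (v j : ℚ) / (B.det : ℚ) := by
    intro j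
    have h : ∃ i, β i = β j := ⟨j, rfl⟩
    have : h.choose = j := hβ h.choose_spec
    simp only [y]
    rw [dif_pos h, this]
  have hyN : ∀ c, (¬ ∃ i, β i = c) → y c = 0 := by
    intro c h
    simp only [y]
    rw [dif_neg h]
  have hyσ : ∀ i, ∑ c, (A (σ i) c : ℚ) * y c = (b (σ i) : ℚ) := by
    intro i
    have h1 : ∑ c, (A (σ i) c : ℚ) * y c = ∑ j, (A (σ i) (β j) : ℚ) * y (β j) := by
      rw [← Finset.sum_image (s := Finset.univ) (g := β) (f := fun c => (A (σ i) c : ℚ) * y c)
        (fun a _ b _ h => hβ h)]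
      symm
      apply Finset.sum_subset (Finset.subset_univ _)
      intro c _ hc
      rw [hyN c, mul_zero]
      rintro ⟨j, rfl⟩
      exact hc (Finset.mem_image_of_mem _ (Finset.mem_univ j))
    rw [h1]
    have h2 := congrFun hBv i
    simp only [Matrix.mulVec, dotProduct, Pi.smul_apply, smul_eq_mul] at h2
    have h3 : ∑ j, (A (σ i) (β j) : ℚ) * y (β j) =
        (∑ j, (A (σ i) (β j) : ℚ) * (v j : ℚ)) / (B.det : ℚ) := by
      rw [Finset.sum_div]
      refine Finset.sum_congr rfl fun j _ => ?_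
      rw [hyβ, mul_div_assoc]
    rw [h3, div_eq_iff hdQ, mul_comm (b (σ i) : ℚ)]
    have h4 : ((∑ j, B i j * v j : ℤ) : ℚ) = ((B.det * b (σ i) : ℤ) : ℚ) := by rw [h2]
    rw [Int.cast_mul, Int.cast_sum] at h4
    rw [← h4]
    refine Finset.sum_congr rfl fun j _ => ?_
    rw [Int.cast_mul]
    rfl
  refine ⟨y, ?_, ?_⟩
  · intro ρ
    obtain ⟨w, hw⟩ := row_combination A hmax σ β hdet ρ
    have key : ∑ c, (A ρ c : ℚ) * y c = ∑ j, w j * (∑ c, (A (σ j) c : ℚ) * y c) := by
      simp only [hw, Finset.sum_mul, Finset.mul_sum]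
      rw [Finset.sum_comm]
      refine Finset.sum_congr rfl fun j _ => Finset.sum_congr rfl fun c _ => by ring
    have hwK : ∀ c, (A ρ c : K) = ∑ j, (w j : K) * (A (σ j) c : K) := by
      intro c
      have := congrArg (Rat.cast : ℚ → K) (hw c)
      push_cast at this
      exact this
    have keyK : ∑ c, (A ρ c : K) * x c = ∑ j, (w j : K) * (∑ c, (A (σ j) c : K) * x c) := by
      simp only [hwK, Finset.sum_mul, Finset.mul_sum]
      rw [Finset.sum_comm]
      refine Finset.sum_congr rfl fun j _ => Finset.sum_congr rfl fun c _ => by ring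
    simp only [hyσ] at key
    simp only [hx] at keyK
    rw [key]
    have h5 : ((b ρ : ℚ) : K) = ((∑ j, w j * (b (σ j) : ℚ) : ℚ) : K) := by
      push_cast
      exact keyK
    exact (Rat.cast_injective h5).symm
  · intro c
    by_cases h : ∃ i, β i = c
    · obtain ⟨i, rfl⟩ := h
      rw [hyβ, abs_div]
      have h1 : (1 : ℚ) ≤ |(B.det : ℚ)| := by
        have : (1 : ℤ) ≤ |B.det| := Int.one_le_abs hdet
        exact_mod_cast this
      have h2 : |(v i : ℚ)| ≤ (m : ℚ) := by exact_mod_cast hvb i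
      rw [div_le_iff₀ (by linarith)]
      have hm0' : (0 : ℚ) ≤ m := by exact_mod_cast hm0
      nlinarith
    · rw [hyN c h, abs_zero]
      exact_mod_cast hm0

end Pool.Agent.NH58.SmallSol
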