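import Mathlib

set_option autoImplicit false

/-!
# Tables of two finite simple solutions of the Yang-Baxter equation

The tables of two involutive non-degenerate simple solutions, with `8` and with `12` elements, both
with a system of imprimitivity consisting of blocks with four elements.
-/

namespace Pool.Agent.NH58.YB

/-- The table of the first components `σ_x(y)` of the solution with 8 elements. -/
def S8 : List (List ℕ) :=
  [[2, 1, 0, 3, 5, 4, 7, 6],
   [7, 4, 5, 6, 2, 3, 0, 1],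
   [7, 4, 5, 6, 0, 1, 2, 3],
   [0, 3, 2, 1, 5, 4, 7, 6],
   [4, 5, 6, 7, 1, 2, 3, 0],
   [6, 7, 4, 5, 1, 2, 3, 0],
   [3, 2, 1, 0, 6, 5, 4, 7],
   [3, 2, 1, 0, 4, 7, 6, 5]]

/-- The table of the second components `τ_y(x)` (row `x`, column `y`). -/
def T8 : List (List ℕ) :=
  [[4, 6, 2, 0, 7, 7, 3, 3],
   [2, 4, 4, 2, 5, 3, 1, 7],
   [1, 5, 5, 1, 0, 4, 6, 2],
   [3, 1, 7, 5, 6, 6, 0, 0],
   [0, 2, 6, 4, 1, 1, 5, 5],
   [5, 7, 1, 3, 2, 2, 4, 4],
   [7, 3, 3, 7, 4, 0, 2, 6],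
   [6, 0, 0, 6, 3, 5, 7, 1]]

/-- Words leading from the pair `(a, b)` to the pair `(0, 1)`. -/
def W8 : List (List (List ℕ)) :=
  [[[], [], [13, 15], [3], [0, 12], [0, 12], [10], [10]],
   [[9, 15], [], [1, 2], [12, 12], [4, 15], [2, 15], [5, 11], [1, 15]],
   [[9, 15], [0], [], [0, 3], [12], [12], [0, 10], [0, 10]],
   [[0, 6], [8, 10], [6], [], [5, 15], [1, 11], [4, 11], [2, 11]],
   [[2, 10], [15], [1, 12], [2, 10], [], [2], [13, 12], [1, 0]],
   [[4, 12], [15], [5, 12], [3, 15], [0, 2], [], [8, 11], [8, 11]],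
   [[1, 10], [2, 12], [2, 12], [11], [9, 12], [0, 4], [], [1]],
   [[5, 10], [3, 11], [4, 10], [11], [4], [12, 15], [0, 1], []]]

/-- Words leading from the pair `(0, 1)` to the pairs `(0, i)`. -/
def V8 : List (List ℕ) :=
  [[], [], [0, 12], [3], [8, 12], [10], [8, 0], [1, 11]]
/-- The table of the first components `σ_x(y)` of the solution with 12 elements. -/
def S12 : List (List ℕ) :=
  [[8, 11, 9, 10, 5, 4, 7, 6, 0, 2, 3, 1],
   [9, 8, 10, 11, 3, 1, 2, 0, 5, 7, 6, 4],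
   [2, 0, 3, 1, 10, 11, 9, 8, 4, 6, 7, 5],
   [7, 6, 5, 4, 9, 10, 8, 11, 1, 3, 2, 0],
   [10, 11, 9, 8, 5, 7, 4, 6, 3, 1, 0, 2],
   [11, 8, 10, 9, 3, 2, 1, 0, 6, 4, 5, 7],
   [1, 0, 3, 2, 10, 9, 11, 8, 7, 5, 4, 6],
   [4, 6, 5, 7, 9, 8, 10, 11, 2, 0, 1, 3],
   [1, 3, 0, 2, 8, 11, 9, 10, 7, 6, 4, 5],
   [7, 5, 6, 4, 11, 8, 10, 9, 1, 0, 2, 3],
   [9, 10, 8, 11, 0, 2, 1, 3, 5, 4, 6, 7],
   [10, 9, 11, 8, 6, 4, 7, 5, 3, 2, 0, 1]]

/-- The table of the second components `τ_y(x)` (row `x`, column `y`). -/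
def T12 : List (List ℕ) :=
  [[2, 10, 9, 4, 7, 10, 9, 1, 8, 1, 11, 7],
   [8, 0, 6, 11, 8, 5, 3, 11, 6, 10, 0, 9],
   [0, 9, 10, 6, 5, 9, 10, 3, 11, 3, 8, 5],
   [11, 2, 4, 8, 11, 7, 1, 8, 4, 9, 2, 10],
   [9, 5, 3, 10, 9, 0, 6, 10, 3, 11, 5, 8],
   [7, 11, 8, 1, 2, 11, 8, 4, 9, 4, 10, 2],
   [10, 7, 1, 9, 10, 2, 4, 9, 1, 8, 7, 11],
   [5, 8, 11, 3, 0, 8, 11, 6, 10, 6, 9, 0],
   [1, 6, 0, 7, 4, 3, 5, 2, 5, 7, 3, 1],
   [4, 3, 5, 2, 1, 6, 0, 7, 0, 2, 6, 4],
   [6, 1, 7, 0, 3, 4, 2, 5, 2, 0, 4, 6],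
   [3, 4, 2, 5, 6, 1, 7, 0, 7, 5, 1, 3]]

/-- Words leading from the pair `(a, b)` to the pair `(0, 1)`. -/
def W12 : List (List (List ℕ)) :=
  [[[], [], [1, 7], [20], [17, 22], [12, 0], [0, 17, 3], [21, 8], [0, 13, 23], [20], [14, 9], [1, 21]],
   [[6], [], [2, 20], [2], [12, 7], [4, 22], [0, 22], [12, 21], [21, 5], [16, 23], [16, 23], [12, 7]],
   [[8], [2, 23], [], [0, 7], [17, 22], [0, 21], [4, 21], [16, 4], [13, 20], [16, 11], [22, 5], [13, 20]],
   [[23], [0, 11], [0, 4], [], [20, 2], [0, 12, 7], [16, 7], [12, 21], [16, 9], [1, 22], [0, 16, 20], [23]],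
   [[5, 23], [12, 4], [0, 12, 22], [1, 23], [], [2, 11], [10], [22], [0, 12, 3], [21, 6], [12, 4], [17, 21]],
   [[12, 3], [21, 22], [21, 10], [12, 22], [1, 2], [], [0, 22], [0, 10], [8, 22], [12, 22], [2, 22], [14, 11]],
   [[17, 21], [20, 1], [20, 21], [16, 4], [0, 1], [0, 21], [], [0, 5], [2, 21], [16, 11], [8, 21], [13, 20]],
   [[1, 20], [0, 13, 20], [16, 7], [5, 20], [21], [1], [5], [], [16, 9], [12, 22], [0, 16, 4], [22, 6]],
   [[13, 23], [4, 23], [0, 20], [18, 9], [13, 23], [20, 5], [13, 23], [17, 3], [], [2, 10], [0, 20], [0]],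
   [[20, 6], [0, 13, 20], [17, 0], [21, 20], [21], [0, 17, 22], [18, 11], [3, 23], [9], [], [7], [1, 21]],
   [[12, 9], [0, 23], [4, 20], [16, 20], [12, 7], [16, 20], [23, 5], [12, 21], [0, 23], [4], [], [11]],
   [[20, 23], [12, 4], [0, 16, 23], [23, 6], [3, 20], [12, 11], [0, 12, 21], [22], [3], [1, 22], [0, 2], []]]

/-- Words leading from the pair `(0, 1)` to the pairs `(0, i)`. -/
def V12 : List (List ℕ) :=
  [[], [], [1, 7], [0, 12, 19], [5, 22], [20], [1, 21], [0, 12, 2], [1, 12, 1], [0, 17, 3], [17, 10], [0, 14]]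

/-- Entry of a table. -/
def ent (T : List (List ℕ)) (i j : ℕ) : ℕ := (T.getD i []).getD j 0

/-- One step: the letters `c < n` stand for `(u, v) ↦ (σ_c u, σ_c v)`, the letters `n + c` for
`(u, v) ↦ (σ_u c, σ_v c)`. -/
def stp (n : ℕ) (T : List (List ℕ)) (p : ℕ × ℕ) (c : ℕ) : ℕ × ℕ :=
  if c < n then (ent T c p.1, ent T c p.2) else (ent T p.1 (c - n), ent T p.2 (c - n))

/-- Everything that has to be checked for a table `S` of the first and `T` of the second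
components with `n` elements and blocks `{4 i, …, 4 i + 3}`, with certificates `W`, `V` for
simplicity. -/
structure Chk (n : ℕ) (S T : List (List ℕ)) (W : List (List (List ℕ))) (V : List (List ℕ)) :
    Prop where
  ltS : ∀ i j : Fin n, ent S i j < n
  ltT : ∀ i j : Fin n, ent T i j < n
  inv1 : ∀ i j : Fin n, ent S (ent S i j) (ent T i j) = i
  inv2 : ∀ i j : Fin n, ent T (ent S i j) (ent T i j) = j
  left : ∀ i j k : Fin n, ent S i j = ent S i k → j = k
  right : ∀ i j k : Fin n, ent T i k = ent T j k → i = j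
  braid : ∀ i j k : Fin n,
    (ent S (ent S i j) (ent S (ent T i j) k) = ent S i (ent S j k)) ∧
    (ent T (ent S i j) (ent S (ent T i j) k) = ent S (ent T i (ent S j k)) (ent T j k)) ∧
    (ent T (ent T i j) k = ent T (ent T i (ent S j k)) (ent T j k))
  block : ∀ i j k : Fin n, (j : ℕ) / 4 = k / 4 ↔ ent S i j / 4 = ent S i k / 4
  words : ∀ i j : Fin n, i ≠ j →
    ((W.getD i []).getD j []).foldl (stp n S) ((i : ℕ), (j : ℕ)) = (0, 1) ∧
    ∀ c ∈ (W.getD i []).getD j [], c < 2 * n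
  wordsV : ∀ i : Fin n, (i : ℕ) ≠ 0 → (V.getD i []).foldl (stp n S) (0, 1) = (0, (i : ℕ)) ∧
    ∀ c ∈ V.getD i [], c < 2 * n

theorem chk8 : Chk 8 S8 T8 W8 V8 where
  ltS := by decide +kernel
  ltT := by decide +kernel
  inv1 := by decide +kernel
  inv2 := by decide +kernel
  left := by decide +kernel
  right := by decide +kernel
  braid := by decide +kernel
  block := by decide +kernel
  words := by decide +kernel
  wordsV := by decide +kernel

theorem chk12 : Chk 12 S12 T12 W12 V12 where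
  ltS := by decide +kernel
  ltT := by decide +kernel
  inv1 := by decide +kernel
  inv2 := by decide +kernel
  left := by decide +kernel
  right := by decide +kernel
  braid := by decide +kernel
  block := by decide +kernel
  words := by decide +kernel
  wordsV := by decide +kernel

end Pool.Agent.NH58.YB
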